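import Pool.Agent.Bht.CZ.Sig

namespace Pool.Agent.Bht.BK.CZ

open Pool.Agent.H25

variable {K : Type*} [Field K]

/-! ## C rows: counting big clades -/
section C
variable (r : ℕ) (al : BT → Prop)

private lemma cb_node_eq (a b : BT) : cb r al (BT.node a b) =
    if cb r al a + cb r al b = 0 then (open Classical in if Big r al (BT.node a b) then 1 else 0)
      else cb r al a + cb r al b := by
  rw [cb]

private lemma cb_leaf_eq : cb r al BT.leaf = (open Classical in if Big r al BT.leaf then 1 else 0) := by
  rw [cb]

private lemma cb_node_le (a b : BT) (h : cb r al a + cb r al b = 0) : cb r al (BT.node a b) ≤ 1 := by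
  rw [cb_node_eq, if_pos h]
  split_ifs <;> omega

theorem cb_pos_iff (s : BT) : 0 < cb r al s ↔ Big r al s := by
  induction s with
  | leaf =>
    rw [cb_leaf_eq]
    by_cases h : Big r al BT.leaf
    · simp [h]
    · simp [h]
  | node a b iha ihb =>
    rw [cb_node_eq]
    by_cases h0 : cb r al a + cb r al b = 0
    · rw [if_pos h0]
      by_cases h : Big r al (BT.node a b)
      · simp [h]
      · simp [h]
    · rw [if_neg h0]
      constructor
      · intro _
        have h1 : 0 < cb r al a ∨ 0 < cb r al b := by omega
        left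
        have ha := a.lv_pos
        have hb := b.lv_pos
        rw [BT.lv]
        rcases h1 with h1 | h1
        · rcases iha.1 h1 with h2 | ⟨h2, _⟩ <;> omega
        · rcases ihb.1 h1 with h2 | ⟨h2, _⟩ <;> omega
      · intro _
        omega

theorem cb_zero (s : BT) (h : cb r al s = 0) : s.lv < r ∨ (s.lv = r ∧ al s) := by
  have h1 : ¬ Big r al s := fun h2 => by
    have h3 := (cb_pos_iff r al s).2 h2
    omega
  unfold Big at h1
  push Not at h1
  rcases Nat.lt_or_ge s.lv r with h2 | h2
  · exact Or.inl h2
  · have h3 : s.lv = r := le_antisymm h1.1 h2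
    exact Or.inr ⟨h3, h1.2 h3⟩

theorem cb_node {a b : BT} (h : 0 < cb r al a ∨ 0 < cb r al b) : cb r al (BT.node a b) = cb r al a + cb r al b := by
  rw [cb_node_eq, if_neg (by omega)]

theorem cb_le_left (a b : BT) : cb r al a ≤ cb r al (BT.node a b) := by
  rcases Nat.eq_zero_or_pos (cb r al a) with h | h
  · omega
  · rw [cb_node r al (Or.inl h)]; omega

theorem cb_le_right (a b : BT) : cb r al b ≤ cb r al (BT.node a b) := by
  rcases Nat.eq_zero_or_pos (cb r al b) with h | h
  · omega
  · rw [cb_node r al (Or.inr h)]; omega

private lemma alN_iso {s t : BT} (h : BT.Iso s t) : X0 K s = X0 K t := by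
  induction h with
  | leaf => rfl
  | node _ _ h1 h2 => rw [X0, X0, h1, h2]
  | swap _ _ h1 h2 => rw [X0, X0, h1, h2, br_comm]

private lemma Big_iso (P : Submodule K (TT K)) {s t : BT} (h : BT.Iso s t) :
    Big r (alN P) s ↔ Big r (alN P) t := by
  unfold Big alN
  rw [h.lv_eq, alN_iso (K := K) h]

theorem cb_iso (P : Submodule K (TT K)) {s t : BT} (h : BT.Iso s t) : cb r (alN P) s = cb r (alN P) t := by
  induction h with
  | leaf => rfl
  | @node a b c d h1 h2 ih1 ih2 =>
    have hB := Big_iso r P (BT.Iso.node h1 h2)
    rw [cb_node_eq, cb_node_eq, ih1, ih2]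
    by_cases hb : Big r (alN P) (BT.node a b)
    · rw [if_pos hb, if_pos (hB.1 hb)]
    · rw [if_neg hb, if_neg (fun h' => hb (hB.2 h'))]
  | @swap a b c d h1 h2 ih1 ih2 =>
    have hB := Big_iso r P (BT.Iso.swap h1 h2)
    rw [cb_node_eq, cb_node_eq, ih1, ih2, add_comm (cb r (alN P) d)]
    by_cases hb : Big r (alN P) (BT.node a b)
    · rw [if_pos hb, if_pos (hB.1 hb)]
    · rw [if_neg hb, if_neg (fun h' => hb (hB.2 h'))]

theorem paths_sum {s : BT} {l : List BT} (hl : l ∈ paths s) : cb r al s ≤ (l.map (cb r al)).sum + 1 := by
  induction s generalizing l with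
  | leaf =>
    rw [cb_leaf_eq]
    split_ifs <;> omega
  | node a b iha ihb =>
    rcases Nat.eq_zero_or_pos (cb r al a + cb r al b) with h | h
    · have := cb_node_le r al a b h
      omega
    · rw [cb_node r al (by omega)]
      rw [paths, List.mem_append, List.mem_map, List.mem_map] at hl
      rcases hl with ⟨l', hl', rfl⟩ | ⟨l', hl', rfl⟩
      · have := iha hl'
        rw [List.map_cons, List.sum_cons]
        omega
      · have := ihb hl'
        rw [List.map_cons, List.sum_cons]
        omega

theorem bp_mem (s : BT) : bp r al s ∈ paths s := by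
  induction s with
  | leaf => rw [bp, paths]; exact List.mem_singleton.2 rfl
  | node a b iha ihb =>
    rw [bp, paths, List.mem_append, List.mem_map, List.mem_map]
    split_ifs with h1 h2
    · exact Or.inl ⟨_, iha, rfl⟩
    · exact Or.inr ⟨_, ihb, rfl⟩
    · exact Or.inl ⟨_, iha, rfl⟩

private lemma paths_zero {s : BT} (h : cb r al s = 0) {l : List BT} (hl : l ∈ paths s) :
    (l.map (cb r al)).sum = 0 := by
  induction s generalizing l with
  | leaf =>
    rw [paths, List.mem_singleton] at hl
    rw [hl]; rfl
  | node a b iha ihb =>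
    have h1 := cb_le_left r al a b
    have h2 := cb_le_right r al a b
    rw [paths, List.mem_append, List.mem_map, List.mem_map] at hl
    rcases hl with ⟨l', hl', rfl⟩ | ⟨l', hl', rfl⟩
    · have := iha (by omega) hl'
      rw [List.map_cons, List.sum_cons]
      omega
    · have := ihb (by omega) hl'
      rw [List.map_cons, List.sum_cons]
      omega

private lemma cb_node_one {a b : BT} (h : 0 < cb r al (BT.node a b)) (ha : cb r al a = 0)
    (hb : cb r al b = 0) : cb r al (BT.node a b) = 1 := by
  have := cb_node_le r al a b (by omega)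
  omega

theorem bp_sum (s : BT) (h : 0 < cb r al s) : ((bp r al s).map (cb r al)).sum + 1 = cb r al s := by
  induction s with
  | leaf =>
    have h1 : cb r al BT.leaf ≤ 1 := by
      rw [cb_leaf_eq]; split_ifs <;> omega
    rw [bp, List.map_nil, List.sum_nil]
    omega
  | node a b iha ihb =>
    rw [bp]
    split_ifs with h1 h2
    · have := iha h1
      rw [cb_node r al (Or.inl h1), List.map_cons, List.sum_cons]
      omega
    · have := ihb h2
      rw [cb_node r al (Or.inr h2), List.map_cons, List.sum_cons]
      omega
    · have h3 := paths_zero r al (s := a) (by omega) (bp_mem r al a)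
      have h4 := cb_node_one r al h (by omega) (by omega)
      rw [List.map_cons, List.sum_cons]
      omega

theorem mb_shape (s : BT) : (mb r al s).shape = s := by
  induction s with
  | leaf => rw [mb, MT2.shape]
  | node a b iha ihb =>
    rw [mb]
    split_ifs with h1 h2
    · rw [MT2.shape, iha, ihb]
    · rw [MT2.shape, ihb]
    · rw [MT2.shape, iha]

private lemma mb_marks_zero (s : BT) (h : cb r al s = 0) : (mb r al s).marks = 1 := by
  induction s with
  | leaf => rw [mb, MT2.marks]
  | node a b iha ihb =>
    have h1 := cb_le_left r al a b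
    have h2 := cb_le_right r al a b
    rw [mb, if_neg (by omega), if_neg (by omega), MT2.marks]
    exact iha (by omega)

theorem mb_marks (s : BT) (h : 0 < cb r al s) : (mb r al s).marks = cb r al s := by
  induction s with
  | leaf =>
    have h1 : cb r al BT.leaf ≤ 1 := by
      rw [cb_leaf_eq]; split_ifs <;> omega
    rw [mb, MT2.marks]
    omega
  | node a b iha ihb =>
    rw [mb]
    split_ifs with h1 h2
    · rw [MT2.marks, iha h1.1, ihb h1.2, cb_node r al (Or.inl h1.1)]
    · rw [MT2.marks, ihb h2, cb_node r al (Or.inr h2)]
      omega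
    · rw [MT2.marks]
      rcases Nat.eq_zero_or_pos (cb r al a) with h3 | h3
      · rw [mb_marks_zero r al a h3, cb_node_one r al h h3 (by omega)]
      · rw [iha h3, cb_node r al (Or.inl h3)]
        omega

theorem mb_hangs (s : BT) : ∀ h ∈ (mb r al s).hangs, cb r al h = 0 := by
  induction s with
  | leaf =>
    intro h hh
    rw [mb, MT2.hangs] at hh
    exact absurd hh (List.not_mem_nil)
  | node a b iha ihb =>
    intro h hh
    rw [mb] at hh
    split_ifs at hh with h1 h2
    · rw [MT2.hangs, List.mem_append] at hh
      rcases hh with hh | hh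
      · exact iha h hh
      · exact ihb h hh
    · rw [MT2.hangs, List.mem_cons] at hh
      rcases hh with rfl | hh
      · omega
      · exact ihb h hh
    · rw [MT2.hangs, List.mem_append, List.mem_singleton] at hh
      rcases hh with hh | rfl
      · exact iha h hh
      · omega

theorem paths_lv {s : BT} {l : List BT} (hl : l ∈ paths s) : (l.map BT.lv).sum + 1 = s.lv := by
  induction s generalizing l with
  | leaf =>
    rw [paths, List.mem_singleton] at hl
    rw [hl]; rfl
  | node a b iha ihb =>
    rw [paths, List.mem_append, List.mem_map, List.mem_map] at hl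
    rw [BT.lv]
    rcases hl with ⟨l', hl', rfl⟩ | ⟨l', hl', rfl⟩
    · have := iha hl'
      rw [List.map_cons, List.sum_cons]
      omega
    · have := ihb hl'
      rw [List.map_cons, List.sum_cons]
      omega
end C

end Pool.Agent.Bht.BK.CZ
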