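import Pool.Agent.Bht.CZ.A1

namespace Pool.Agent.Bht.BK.CZ

open Pool.Agent.H25

/-! ## A2 letters, alive shapes -/
section A2
variable {α β : Type} {K : Type*} [Field K]

lemma exists_map_eq {e : α → β} (he : Function.Surjective e) (L : LT β) : ∃ L' : LT α, LT.map e L' = L := by
  induction L with
  | leaf x =>
    obtain ⟨y, rfl⟩ := he x
    exact ⟨LT.leaf y, rfl⟩
  | node a b iha ihb =>
    obtain ⟨a', rfl⟩ := iha
    obtain ⟨b', rfl⟩ := ihb
    exact ⟨LT.node a' b', rfl⟩

private lemma a2_exists_list {e : α → β} (he : Function.Surjective e) (Ls : List (LT β)) :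
    ∃ Ls' : List (LT α), Ls'.map (LT.map e) = Ls := by
  induction Ls with
  | nil => exact ⟨[], rfl⟩
  | cons L Ls ih =>
    obtain ⟨Ls', rfl⟩ := ih
    obtain ⟨L', rfl⟩ := exists_map_eq he L
    exact ⟨L' :: Ls', rfl⟩

lemma KI_map (e : α → β) {J : BT → Prop} {φ : List β → K} (h : KI J φ) : KI J (fun w : List α => φ (w.map e)) := by
  intro U hU u v
  have h1 := h (LT.map e U) (by rw [shape_map]; exact hU) (u.map e) (v.map e)
  rw [val_map] at h1
  rw [← h1]
  congr 1
  funext w
  show φ (List.map e (u ++ w ++ v)) = _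
  rw [List.map_append, List.map_append]

private lemma a2_shapes (e : α → β) (Ls : List (LT α)) :
    (Ls.map (LT.map e)).map LT.shape = Ls.map LT.shape := by
  rw [List.map_map]
  apply List.map_congr_left
  intro L _
  exact shape_map e L

lemma Ann_map {e : α → β} (he : Function.Surjective e) {S : List (List BT)} {φ : List β → K} :
    Ann S (fun w : List α => φ (w.map e)) ↔ Ann S φ := by
  constructor
  · intro h l hl Ls hLs
    obtain ⟨Ls', rfl⟩ := a2_exists_list he Ls
    rw [pv_map]
    exact h l hl Ls' (by rw [← a2_shapes e, hLs])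
  · intro h l hl Ls hLs
    rw [← pv_map]
    exact h l hl _ (by rw [a2_shapes, hLs])

lemma Ann_append {S T : List (List BT)} {φ : List α → K} : Ann (S ++ T) φ ↔ Ann S φ ∧ Ann T φ := by
  unfold Ann
  constructor
  · intro h
    exact ⟨fun l hl => h l (List.mem_append_left _ hl), fun l hl => h l (List.mem_append_right _ hl)⟩
  · rintro ⟨h1, h2⟩ l hl
    rcases List.mem_append.1 hl with h | h
    · exact h1 l h
    · exact h2 l h

lemma UA_append {J : BT → Prop} {S T : List (List BT)} : UA K J (S ++ T) = UA K J S ∩ UA K J T := by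
  ext φ
  unfold UA
  simp only [Set.mem_setOf_eq, Set.mem_inter_iff, Ann_append]
  tauto

/-- an inclusion of `UA`s may be applied to functions on words in any countable set of letters -/
lemma UA_transfer [Countable β] [Nonempty β] {J : BT → Prop} {S T : List (List BT)} (h : UA K J T ⊆ UA K J S)
    {φ : List β → K} (hK : KI J φ) (hT : Ann T φ) : Ann S φ := by
  obtain ⟨e, he⟩ := exists_surjective_nat β
  exact (Ann_map he).1 (h ⟨KI_map e hK, (Ann_map he).2 hT⟩).2

lemma NI_of [Countable β] [Nonempty β] {J : BT → Prop} {φ : List β → K} (hK : KI J φ) {L : LT β}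
    (h : L.val φ ≠ 0) : NI K J L.shape := by
  obtain ⟨e, he⟩ := exists_surjective_nat β
  obtain ⟨L', rfl⟩ := exists_map_eq he L
  refine ⟨_, KI_map e hK, L', (shape_map e L').symm, ?_⟩
  rw [val_map] at h
  exact h

lemma not_NI [Countable β] [Nonempty β] {J : BT → Prop} {h : BT} (hn : ¬ NI K J h) {φ : List β → K} (hK : KI J φ)
    {L : LT β} (hL : L.shape = h) (u v : List β) : L.val (fun w => φ (u ++ w ++ v)) = 0 := by
  by_contra hc
  apply hn
  rw [← hL]
  refine NI_of (φ := fun w => φ (u ++ w ++ v)) ?_ hc
  intro U hU u' v'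
  have h1 := hK U hU (u ++ u') (v' ++ v)
  rw [← h1]
  congr 1
  funext w
  simp only [List.append_assoc]

lemma Ann_of_not_NI [Countable β] [Nonempty β] {J : BT → Prop} {φ : List β → K} (hK : KI J φ) {l : List BT} {h : BT}
    (hl : h ∈ l) (hn : ¬ NI K J h) : Ann [l] φ := by
  intro l' hl' Ls hLs
  rw [List.mem_singleton] at hl'
  rw [hl'] at hLs
  rw [← hLs, List.mem_map] at hl
  obtain ⟨L, hL, hs⟩ := hl
  exact pv_clade_zero hL (LT.Cl.refl L) (fun u v => not_NI hn hK hs u v)

lemma not_NI_of {J : BT → Prop} {h : BT} (hJ : J h) : ¬ NI K J h := by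
  rintro ⟨φ, hK, L, hL, hne⟩
  apply hne
  have := hK L (by rw [hL]; exact hJ) [] []
  simpa using this

lemma NI_mono {J J' : BT → Prop} (hJ : ∀ U, J U → J' U) {h : BT} (hn : NI K J' h) : NI K J h := by
  obtain ⟨φ, hK, L, hL, hne⟩ := hn
  exact ⟨φ, fun U hU => hK U (hJ _ hU), L, hL, hne⟩

private def a2lab : BT → ℕ → LT ℕ
  | BT.leaf, c => LT.leaf c
  | BT.node a b, c => LT.node (a2lab a c) (a2lab b (c + a.lv))

private lemma a2lab_shape : ∀ (s : BT) (c : ℕ), (a2lab s c).shape = s
  | BT.leaf, _ => rfl
  | BT.node a b, c => by rw [a2lab, LT.shape, a2lab_shape a, a2lab_shape b]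

private lemma a2lab_leaves : ∀ (s : BT) (c : ℕ), (a2lab s c).leaves = List.range' c s.lv
  | BT.leaf, _ => rfl
  | BT.node a b, c => by
    rw [a2lab, LT.leaves, a2lab_leaves a, a2lab_leaves b, BT.lv, List.range'_append_1]

private lemma a2_map_congr {f g : α → β} : ∀ L : LT α, (∀ x ∈ L.leaves, f x = g x) →
    LT.map f L = LT.map g L
  | LT.leaf x, h => by
    rw [LT.map, LT.map, h x (by simp [LT.leaves])]
  | LT.node a b, h => by
    rw [LT.map, LT.map, a2_map_congr a (fun x hx => h x (by rw [LT.leaves]; exact List.mem_append_left _ hx)),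
      a2_map_congr b (fun x hx => h x (by rw [LT.leaves]; exact List.mem_append_right _ hx))]

private lemma a2lab_map : ∀ (L : LT β) (c : ℕ), ∃ f : ℕ → β, LT.map f (a2lab L.shape c) = L
  | LT.leaf x, c => ⟨fun _ => x, rfl⟩
  | LT.node a b, c => by
    obtain ⟨f, hf⟩ := a2lab_map a c
    obtain ⟨g, hg⟩ := a2lab_map b (c + a.shape.lv)
    refine ⟨fun i => if i < c + a.shape.lv then f i else g i, ?_⟩
    rw [LT.shape, a2lab, LT.map]
    congr 1
    · refine Eq.trans (a2_map_congr _ ?_) hf
      intro i hi
      rw [a2lab_leaves, List.mem_range'_1] at hi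
      rw [if_pos hi.2]
    · refine Eq.trans (a2_map_congr _ ?_) hg
      intro i hi
      rw [a2lab_leaves, List.mem_range'_1] at hi
      rw [if_neg (by omega)]

/-- multilinear normal form -/
lemma NI_normal {J : BT → Prop} {h : BT} (hn : NI K J h) : ∃ φ : List ℕ → K, KI J φ ∧ Sp h.lv φ ∧
    ∃ L : LT ℕ, L.shape = h ∧ L.leaves = List.range h.lv ∧ L.val φ ≠ 0 := by
  classical
  obtain ⟨φ, hK, L, hL, hne⟩ := hn
  obtain ⟨f, hf⟩ := a2lab_map L 0
  rw [hL] at hf
  have hK1 := KI_map f hK
  have hv : (a2lab h 0).val (fun w => φ (w.map f)) ≠ 0 := by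
    rw [← val_map, hf]
    exact hne
  have hl : (a2lab h 0).leaves = List.range h.lv := by
    rw [a2lab_leaves, List.range_eq_range']
  refine ⟨fun w => if w.Perm (List.range h.lv) then φ (w.map f) else 0, ?_, ?_, a2lab h 0,
    a2lab_shape h 0, hl, ?_⟩
  · intro U hU u v
    by_cases hp : (u ++ U.leaves ++ v).Perm (List.range h.lv)
    · rw [← hK1 U hU u v]
      apply val_congr
      intro w hw
      have h2 : (u ++ w ++ v).Perm (List.range h.lv) :=
        (List.Perm.append_right v (List.Perm.append_left u hw)).trans hp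
      exact if_pos h2
    · refine (val_congr (χ := fun _ => (0 : K)) U ?_).trans (val_zero (K := K) U)
      intro w hw
      have h2 : ¬ (u ++ w ++ v).Perm (List.range h.lv) := fun h3 => hp
        ((List.Perm.append_right v (List.Perm.append_left u hw.symm)).trans h3)
      exact if_neg h2
  · intro w hw
    by_contra hc
    exact hw (if_neg hc)
  · have h3 : (a2lab h 0).val (fun w => if w.Perm (List.range h.lv) then φ (w.map f) else 0) =
        (a2lab h 0).val (fun w => φ (w.map f)) := by
      apply val_congr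
      intro w hw
      rw [hl] at hw
      exact if_pos hw
    rw [h3]
    exact hv

private lemma a2lab_val : ∀ (s : BT) (c : ℕ),
    (a2lab s c).val (fun w => if w = List.range' c s.lv then (1 : K) else 0) = 1
  | BT.leaf, c => by
    exact if_pos rfl
  | BT.node a b, c => by
    rw [a2lab, LT.val]
    have h1 : (a2lab a c).val (fun p => (a2lab b (c + a.lv)).val (fun q =>
        if p ++ q = List.range' c (BT.node a b).lv then (1 : K) else 0)) = 1 := by
      refine (val_congr (χ := fun w => if w = List.range' c a.lv then (1 : K) else 0) _ ?_).trans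
        (a2lab_val a c)
      intro p hp
      rw [a2lab_leaves] at hp
      have hpl : p.length = (List.range' c a.lv).length := hp.length_eq
      by_cases h : p = List.range' c a.lv
      · rw [if_pos h]
        refine (val_congr (χ := fun w => if w = List.range' (c + a.lv) b.lv then (1 : K) else 0) _
          ?_).trans (a2lab_val b (c + a.lv))
        intro q _
        have e : (p ++ q = List.range' c (BT.node a b).lv) ↔ q = List.range' (c + a.lv) b.lv := by
          rw [BT.lv, ← List.range'_append_1, h]
          exact List.append_right_inj _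
        by_cases hq : q = List.range' (c + a.lv) b.lv
        · rw [if_pos hq, if_pos (e.2 hq)]
        · rw [if_neg hq, if_neg (fun h => hq (e.1 h))]
      · rw [if_neg h]
        refine (val_congr (χ := fun _ => (0 : K)) _ ?_).trans (val_zero (K := K) (a2lab b (c + a.lv)))
        intro q _
        rw [if_neg]
        intro hc
        rw [BT.lv, ← List.range'_append_1] at hc
        exact h (List.append_inj hc hpl).1
    have h2 : (a2lab b (c + a.lv)).val (fun q => (a2lab a c).val (fun p =>
        if q ++ p = List.range' c (BT.node a b).lv then (1 : K) else 0)) = 0 := by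
      refine (val_congr (χ := fun _ => (0 : K)) _ ?_).trans (val_zero (K := K) (a2lab b (c + a.lv)))
      intro q hq
      refine (val_congr (χ := fun _ => (0 : K)) _ ?_).trans (val_zero (K := K) (a2lab a c))
      intro p _
      rw [if_neg]
      intro hc
      rw [a2lab_leaves] at hq
      have ha := a.lv_pos
      have hb := b.lv_pos
      cases q with
      | nil =>
        have := hq.length_eq
        simp at this
        omega
      | cons x q' =>
        have hx : x ∈ List.range' (c + a.lv) b.lv := hq.mem_iff.1 List.mem_cons_self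
        rw [List.mem_range'_1] at hx
        obtain ⟨k, hk⟩ : ∃ k, (BT.node a b).lv = k + 1 := ⟨(BT.node a b).lv - 1, by
          have := (BT.node a b).lv_pos; omega⟩
        rw [hk, List.range'_succ, List.cons_append] at hc
        injection hc with h3 h4
        omega
    rw [h1, h2, sub_zero]

lemma NI_small {J : BT → Prop} {h : BT} (hJ : ∀ U, J U → h.lv < U.lv) : NI K J h := by
  refine ⟨fun w => if w = List.range' 0 h.lv then 1 else 0, ?_, a2lab h 0, a2lab_shape h 0, ?_⟩
  · intro U hU u v
    refine (val_congr (χ := fun _ => (0 : K)) U ?_).trans (val_zero (K := K) U)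
    intro w hw
    show (if u ++ w ++ v = List.range' 0 h.lv then (1 : K) else 0) = 0
    rw [if_neg]
    intro hc
    have h1 := congrArg List.length hc
    have h2 := hw.length_eq
    rw [length_leaves] at h2
    have h3 := hJ _ hU
    simp only [List.length_append, List.length_range'] at h1
    omega
  · rw [a2lab_val]
    exact one_ne_zero

private lemma a2_iso_val {s s' : BT} (h : BT.Iso s s') : ∀ M : LT α, M.shape = s' →
    ∃ L : LT α, L.shape = s ∧ ∃ c : K, ∀ φ : List α → K, M.val φ = c * L.val φ := by
  induction h with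
  | leaf =>
    intro M hM
    exact ⟨M, hM, 1, fun φ => (one_mul _).symm⟩
  | node _ _ iha ihb =>
    intro M hM
    cases M with
    | leaf x => cases hM
    | node M1 M2 =>
      rw [LT.shape] at hM
      injection hM with h1 h2
      obtain ⟨L1, e1, c1, f1⟩ := iha M1 h1
      obtain ⟨L2, e2, c2, f2⟩ := ihb M2 h2
      refine ⟨LT.node L1 L2, by rw [LT.shape, e1, e2], c1 * c2, fun φ => ?_⟩
      rw [LT.val, LT.val, f1, f2]
      simp only [f1, f2, val_mul_left]
      ring
  | swap _ _ iha ihb =>
    intro M hM
    cases M with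
    | leaf x => cases hM
    | node M1 M2 =>
      rw [LT.shape] at hM
      injection hM with h1 h2
      obtain ⟨L1, e1, c1, f1⟩ := iha M2 h2
      obtain ⟨L2, e2, c2, f2⟩ := ihb M1 h1
      refine ⟨LT.node L1 L2, by rw [LT.shape, e1, e2], -(c1 * c2), fun φ => ?_⟩
      rw [LT.val, LT.val, f1, f2]
      simp only [f1, f2, val_mul_left]
      ring

private lemma a2_iso_pv {l l' : List BT} (h : List.Forall₂ BT.Iso l l') :
    ∀ Ms : List (LT α), Ms.map LT.shape = l' → ∃ Ls : List (LT α), Ls.map LT.shape = l ∧
      ∃ c : K, ∀ φ : List α → K, pv Ms φ = c * pv Ls φ := by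
  induction h with
  | nil =>
    intro Ms hMs
    exact ⟨Ms, hMs, 1, fun φ => (one_mul _).symm⟩
  | cons h1 _ ih =>
    intro Ms hMs
    cases Ms with
    | nil => simp at hMs
    | cons M Ms =>
      rw [List.map_cons] at hMs
      injection hMs with h3 h4
      obtain ⟨L, e1, c1, f1⟩ := a2_iso_val (K := K) h1 M h3
      obtain ⟨Ls, e2, c2, f2⟩ := ih Ms h4
      refine ⟨L :: Ls, by rw [List.map_cons, e1, e2], c1 * c2, fun φ => ?_⟩
      rw [pv, pv, f1]
      simp only [f2, val_mul_left]
      ring

lemma Ann_iso {l l' : List BT} (h : List.Forall₂ BT.Iso l l') {φ : List α → K} (hφ : Ann [l] φ) : Ann [l'] φ := by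
  intro l0 hl0 Ms hMs
  rw [List.mem_singleton] at hl0
  rw [hl0] at hMs
  obtain ⟨Ls, e, c, f⟩ := a2_iso_pv (K := K) h Ms hMs
  rw [f, hφ l (List.mem_singleton_self l) Ls e, mul_zero]

end A2

end Pool.Agent.Bht.BK.CZ
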