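import Pool.Agent.Bht.CZ.A1

namespace Pool.Agent.Bht.BK.CZ

open Pool.Agent.H25

variable {K : Type*} [Field K]

/-! ## A4 letter classes -/

private lemma a4_mono {α ι : Type} (c : α → ι) (φ : List α → K)
    (hφ : ∀ u p q v, (∀ x ∈ p, ∀ y ∈ q, c x ≠ c y) → φ (u ++ p ++ q ++ v) = φ (u ++ q ++ p ++ v)) :
    ∀ (R : LT α), (∀ u v, R.val (fun w => φ (u ++ w ++ v)) = 0) ∨ ∀ x ∈ R.leaves, ∀ y ∈ R.leaves, c x = c y
  | LT.leaf x => by
    right
    simp only [LT.leaves, List.mem_singleton]
    rintro a rfl b rfl
    rfl
  | LT.node P Q => by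
    rcases a4_mono c φ hφ P with h1 | h1
    · left
      intro u v
      refine clade_zero (LT.Cl.left Q (LT.Cl.refl P)) ?_
      intro u' v'
      simpa only [List.append_assoc] using h1 (u ++ u') (v' ++ v)
    rcases a4_mono c φ hφ Q with h2 | h2
    · left
      intro u v
      refine clade_zero (LT.Cl.right P (LT.Cl.refl Q)) ?_
      intro u' v'
      simpa only [List.append_assoc] using h2 (u ++ u') (v' ++ v)
    by_cases hc : ∃ x ∈ P.leaves, ∃ y ∈ Q.leaves, c x = c y
    · right
      obtain ⟨x, hx, y, hy, hxy⟩ := hc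
      intro a ha b hb
      rw [LT.leaves, List.mem_append] at ha hb
      have key : ∀ a, a ∈ P.leaves ∨ a ∈ Q.leaves → c a = c x := by
        intro a ha
        rcases ha with ha | ha
        · exact h1 a ha x hx
        · rw [hxy]; exact h2 a ha y hy
      rw [key a ha, key b hb]
    · left
      intro u v
      rw [LT.val, sub_eq_zero, val_val Q P]
      refine val_congr P ?_
      intro p hp
      refine val_congr Q ?_
      intro q hq
      have := hφ u p q v
        (fun x hx y hy hxy => hc ⟨x, hp.mem_iff.1 hx, y, hq.mem_iff.1 hy, hxy⟩)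
      simpa only [List.append_assoc] using this

private lemma a4_leaves_ne {α : Type} (L : LT α) : ∃ x, x ∈ L.leaves := by
  induction L with
  | leaf x => exact ⟨x, by simp [LT.leaves]⟩
  | node a b iha ihb =>
    obtain ⟨x, hx⟩ := iha
    exact ⟨x, by rw [LT.leaves, List.mem_append]; exact Or.inl hx⟩

private lemma a4_fm_nil {i : ℕ} {w : List (ℕ × ℕ)} (h : ∀ x ∈ w, x.1 ≠ i) :
    w.filterMap (fun x => if x.1 = i then some x.2 else none) = [] := by
  rw [List.filterMap_eq_nil_iff]
  intro x hx
  rw [if_neg (h x hx)]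

private lemma a4_fm_map {i : ℕ} : ∀ {w : List (ℕ × ℕ)}, (∀ x ∈ w, x.1 = i) →
    w.filterMap (fun x => if x.1 = i then some x.2 else none) = w.map Prod.snd
  | [], _ => rfl
  | x :: w, h => by
    rw [List.filterMap_cons, if_pos (h x (List.mem_cons_self ..)), List.map_cons,
      a4_fm_map (fun y hy => h y (List.mem_cons_of_mem _ hy))]

private lemma a4_swap (k : ℕ) (φ : ℕ → List ℕ → K) (u p q v : List (ℕ × ℕ))
    (h : ∀ x ∈ p, ∀ y ∈ q, x.1 ≠ y.1) : shuf k φ (u ++ p ++ q ++ v) = shuf k φ (u ++ q ++ p ++ v) := by
  have h1 : (∀ x ∈ u ++ p ++ q ++ v, x.1 < k) ↔ (∀ x ∈ u ++ q ++ p ++ v, x.1 < k) := by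
    simp only [List.mem_append]
    constructor
    · intro h2 x hx
      refine h2 x ?_
      tauto
    · intro h2 x hx
      refine h2 x ?_
      tauto
  have h2 : ∀ i, (u ++ p ++ q ++ v).filterMap (fun x => if x.1 = i then some x.2 else none) =
      (u ++ q ++ p ++ v).filterMap (fun x => if x.1 = i then some x.2 else none) := by
    intro i
    simp only [List.filterMap_append]
    by_cases hp : ∃ x ∈ p, x.1 = i
    · obtain ⟨x, hx, hxi⟩ := hp
      have : q.filterMap (fun x => if x.1 = i then some x.2 else none) = [] := by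
        refine a4_fm_nil ?_
        intro y hy hyi
        exact h x hx y hy (hxi.trans hyi.symm)
      rw [this, List.append_nil, List.append_nil]
    · have : p.filterMap (fun x => if x.1 = i then some x.2 else none) = [] := by
        refine a4_fm_nil ?_
        intro y hy hyi
        exact hp ⟨y, hy, hyi⟩
      rw [this, List.append_nil, List.append_nil]
  unfold shuf
  simp only [h2]
  by_cases h3 : ∀ x ∈ u ++ p ++ q ++ v, x.1 < k
  · rw [if_pos h3, if_pos (h1.1 h3)]
  · rw [if_neg h3, if_neg (fun h' => h3 (h1.2 h'))]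

theorem pv_shuf_pure (k : ℕ) (φ : ℕ → List ℕ → K) (Ls : List (LT (ℕ × ℕ))) (h : pv Ls (shuf k φ) ≠ 0) :
    ∀ L ∈ Ls, ∃ i < k, InC i L := by
  intro L hL
  rcases a4_mono (fun x : ℕ × ℕ => x.1) (shuf k φ) (fun u p q v h' => a4_swap k φ u p q v h') L with h1 | h1
  · exact absurd (pv_clade_zero hL (LT.Cl.refl L) h1) h
  · obtain ⟨x, hx⟩ := a4_leaves_ne L
    obtain ⟨w, hw, hne⟩ := exists_perm_of_pv_ne Ls h
    refine ⟨x.1, ?_, fun y hy => h1 y hy x hx⟩
    by_contra hc
    apply hne
    unfold shuf
    rw [if_neg]
    intro h2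
    apply hc
    refine h2 x ?_
    rw [hw.mem_iff, List.mem_flatMap]
    exact ⟨L, hL, hx⟩

private lemma a4_cons (k : ℕ) (φ : ℕ → List ℕ → K) {i0 : ℕ} (hi : i0 < k) (w u : List (ℕ × ℕ))
    (hw : ∀ x ∈ w, x.1 = i0) :
    shuf k φ (w ++ u) = shuf k (fun i => if i = i0 then (fun v => φ i0 (w.map Prod.snd ++ v)) else φ i) u := by
  have h1 : (∀ x ∈ w ++ u, x.1 < k) ↔ (∀ x ∈ u, x.1 < k) := by
    constructor
    · intro h x hx
      exact h x (List.mem_append.2 (Or.inr hx))
    · intro h x hx
      rcases List.mem_append.1 hx with hx | hx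
      · rw [hw x hx]; exact hi
      · exact h x hx
  unfold shuf
  by_cases h3 : ∀ x ∈ u, x.1 < k
  · rw [if_pos h3, if_pos (h1.2 h3)]
    refine Finset.prod_congr rfl ?_
    intro i _
    rw [List.filterMap_append]
    beta_reduce
    by_cases hii : i = i0
    · rw [if_pos hii, hii, a4_fm_map hw]
    · have hw0 : w.filterMap (fun x => if x.1 = i then some x.2 else none) = [] := by
        refine a4_fm_nil ?_
        intro x hx hxi
        exact hii (hxi.symm.trans (hw x hx))
      rw [if_neg hii, hw0, List.nil_append]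
  · rw [if_neg h3, if_neg (fun h' => h3 (h1.1 h'))]

open Classical in
theorem pv_shuf_eq (k : ℕ) (φ : ℕ → List ℕ → K) (Ls : List (LT (ℕ × ℕ))) (h : ∀ L ∈ Ls, ∃ i < k, InC i L) :
    pv Ls (shuf k φ) =
      ∏ i ∈ Finset.range k, pv ((Ls.filter (fun L => InC i L)).map (LT.map Prod.snd)) (φ i) := by
  induction Ls generalizing φ with
  | nil =>
    rw [pv]
    unfold shuf
    rw [if_pos]
    · rfl
    · intro x hx
      exact absurd hx List.not_mem_nil
  | cons L Ms ih =>
    obtain ⟨i0, hi0, hL⟩ := h L (List.mem_cons_self ..)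
    have hMs : ∀ L ∈ Ms, ∃ i < k, InC i L := fun M hM => h M (List.mem_cons_of_mem _ hM)
    rw [pv]
    have e1 : L.val (fun w => pv Ms (fun u => shuf k φ (w ++ u))) =
        L.val (fun w => pv ((Ms.filter (fun L => InC i0 L)).map (LT.map Prod.snd))
            (fun v => φ i0 (w.map Prod.snd ++ v)) *
          ∏ i ∈ (Finset.range k).erase i0, pv ((Ms.filter (fun L => InC i L)).map (LT.map Prod.snd)) (φ i)) := by
      refine val_congr L ?_
      intro w hw
      have h1 : ∀ u, shuf k φ (w ++ u) =
          shuf k (fun i => if i = i0 then (fun v => φ i0 (w.map Prod.snd ++ v)) else φ i) u :=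
        fun u => a4_cons k φ hi0 w u (fun x hx => hL x (hw.mem_iff.1 hx))
      simp only [h1]
      rw [ih _ hMs, ← Finset.mul_prod_erase _ _ (Finset.mem_range.2 hi0)]
      congr 1
      · rw [if_pos rfl]
      · refine Finset.prod_congr rfl ?_
        intro i hi
        rw [if_neg (Finset.mem_erase.1 hi).1]
    rw [e1, val_mul_right, ← Finset.mul_prod_erase _ _ (Finset.mem_range.2 hi0)]
    congr 1
    · have h2 : (L :: Ms).filter (fun L => InC i0 L) = L :: Ms.filter (fun L => InC i0 L) := by
        rw [List.filter_cons, if_pos (by simpa using hL)]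
      rw [h2, List.map_cons, pv, val_map]
    · refine Finset.prod_congr rfl ?_
      intro i hi
      have hne : i ≠ i0 := (Finset.mem_erase.1 hi).1
      have h2 : (L :: Ms).filter (fun L => InC i L) = Ms.filter (fun L => InC i L) := by
        rw [List.filter_cons, if_neg]
        intro h3
        have h4 : InC i L := by simpa using h3
        obtain ⟨x, hx⟩ := a4_leaves_ne L
        exact hne ((h4 x hx).symm.trans (hL x hx))
      rw [h2]

theorem KI_shuf {J : BT → Prop} (k : ℕ) (φ : ℕ → List ℕ → K) (hφ : ∀ i < k, KI J (φ i)) : KI J (shuf k φ) := by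
  intro U hU u v
  rcases a4_mono (fun x : ℕ × ℕ => x.1) (shuf k φ) (fun u p q v h' => a4_swap k φ u p q v h') U with h1 | h1
  · exact h1 u v
  · obtain ⟨x, hx⟩ := a4_leaves_ne U
    let fm : ℕ → List (ℕ × ℕ) → List ℕ := fun i w => w.filterMap (fun x => if x.1 = i then some x.2 else none)
    by_cases hk : ∀ y ∈ u ++ v, y.1 < k
    · by_cases hxk : x.1 < k
      · have e : U.val (fun w => shuf k φ (u ++ w ++ v)) =
            U.val (fun w => φ x.1 (fm x.1 u ++ w.map Prod.snd ++ fm x.1 v) *
              ∏ i ∈ (Finset.range k).erase x.1, φ i (fm i u ++ fm i v)) := by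
          refine val_congr U ?_
          intro w hw
          have hwc : ∀ y ∈ w, y.1 = x.1 := fun y hy => h1 y (hw.mem_iff.1 hy) x hx
          unfold shuf
          rw [if_pos, ← Finset.mul_prod_erase _ _ (Finset.mem_range.2 hxk)]
          · congr 1
            · rw [List.filterMap_append, List.filterMap_append, a4_fm_map hwc]
            · refine Finset.prod_congr rfl ?_
              intro i hi
              have hne : i ≠ x.1 := (Finset.mem_erase.1 hi).1
              rw [List.filterMap_append, List.filterMap_append, a4_fm_nil (w := w), List.append_nil]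
              intro y hy hyi
              exact hne (hyi.symm.trans (hwc y hy))
          · intro y hy
            rw [List.mem_append, List.mem_append] at hy
            rcases hy with (hy | hy) | hy
            · exact hk y (List.mem_append.2 (Or.inl hy))
            · rw [hwc y hy]; exact hxk
            · exact hk y (List.mem_append.2 (Or.inr hy))
        have h2 := hφ x.1 hxk (LT.map Prod.snd U) (by rw [shape_map]; exact hU) (fm x.1 u) (fm x.1 v)
        rw [val_map] at h2
        rw [e, val_mul_right, h2, zero_mul]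
      · rw [← val_zero U]
        refine val_congr U ?_
        intro w hw
        unfold shuf
        rw [if_neg]
        intro h2
        apply hxk
        refine h2 x ?_
        rw [List.mem_append, List.mem_append]
        exact Or.inl (Or.inr (hw.mem_iff.2 hx))
    · rw [← val_zero U]
      refine val_congr U ?_
      intro w _
      unfold shuf
      rw [if_neg]
      intro h2
      apply hk
      intro y hy
      refine h2 y ?_
      rw [List.mem_append] at hy
      rw [List.mem_append, List.mem_append]
      rcases hy with hy | hy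
      · exact Or.inl (Or.inl hy)
      · exact Or.inr hy

end Pool.Agent.Bht.BK.CZ
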