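import Pool.Agent.Bht.CZ.Sig

namespace Pool.Agent.Bht.BK.CZ

open Pool.Agent.H25

/-! ## A5 squares -/

private lemma A5_le {ι : Type*} (sz : ι → ℕ) (bad : ι → Prop) [DecidablePred bad] : ∀ l : List ι,
    ((l.filter (fun L => bad L)).map (fun L => sz L ^ 2)).sum ≤ (l.map sz).sum ^ 2
  | [] => by simp
  | L :: l => by
    have ih := A5_le sz bad l
    rw [List.map_cons, List.sum_cons]
    by_cases h : bad L
    · rw [List.filter_cons_of_pos (by simpa using h), List.map_cons, List.sum_cons]
      nlinarith [Nat.zero_le (sz L * (l.map sz).sum)]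
    · rw [List.filter_cons_of_neg (by simpa using h)]
      nlinarith [Nat.zero_le (sz L * (l.map sz).sum), Nat.zero_le (sz L ^ 2)]

private lemma A5_eq {ι : Type*} (sz : ι → ℕ) (bad : ι → Prop) [DecidablePred bad] (l : List ι)
    (hpos : ∀ L ∈ l, 1 ≤ sz L) (h1 : 1 ≤ (l.map sz).sum)
    (h : ((l.filter (fun L => bad L)).map (fun L => sz L ^ 2)).sum = (l.map sz).sum ^ 2) :
    ∃ L, l = [L] ∧ bad L := by
  cases l with
  | nil => simp at h1
  | cons L l =>
    have hL := hpos L List.mem_cons_self
    have ih := A5_le sz bad l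
    have hl : (l.map sz).sum = 0 := by
      by_contra hne
      have h2 : 1 ≤ (l.map sz).sum := Nat.one_le_iff_ne_zero.2 hne
      have h3 : 1 ≤ sz L * (l.map sz).sum := Nat.one_le_iff_ne_zero.2 (by positivity)
      rw [List.map_cons, List.sum_cons] at h
      by_cases hb : bad L
      · rw [List.filter_cons_of_pos (by simpa using hb), List.map_cons, List.sum_cons] at h
        nlinarith
      · rw [List.filter_cons_of_neg (by simpa using hb)] at h
        nlinarith [Nat.zero_le (sz L ^ 2)]
    have hl2 : l = [] := by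
      cases l with
      | nil => rfl
      | cons M l =>
        have := hpos M (List.mem_cons_of_mem _ List.mem_cons_self)
        rw [List.map_cons, List.sum_cons] at hl
        omega
    subst hl2
    refine ⟨L, rfl, ?_⟩
    by_contra hb
    rw [List.filter_cons_of_neg (by simpa using hb)] at h
    have h4 : 0 = (sz L + 0) ^ 2 := h
    nlinarith

private lemma A5_sum {ι : Type*} (sz c : ι → ℕ) (bad : ι → Prop) [DecidablePred bad] (k : ℕ) : ∀ Ls : List ι,
    (∀ L ∈ Ls, bad L → 1 ≤ c L ∧ c L ≤ k) →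
    ∑ i ∈ Finset.Icc 1 k, (((Ls.filter (fun L => c L = i)).filter (fun L => bad L)).map (fun L => sz L ^ 2)).sum =
      ((Ls.filter (fun L => bad L)).map (fun L => sz L ^ 2)).sum
  | [], _ => by simp
  | L :: Ls, h => by
    have ih := A5_sum sz c bad k Ls (fun M hM => h M (List.mem_cons_of_mem _ hM))
    by_cases hb : bad L
    · have hc := h L List.mem_cons_self hb
      rw [List.filter_cons_of_pos (by simpa using hb), List.map_cons, List.sum_cons, ← ih]
      have e : ∀ i, ((((L :: Ls).filter (fun L => c L = i)).filter (fun L => bad L)).map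
          (fun L => sz L ^ 2)).sum = (if i = c L then sz L ^ 2 else 0) +
          (((Ls.filter (fun L => c L = i)).filter (fun L => bad L)).map (fun L => sz L ^ 2)).sum := by
        intro i
        by_cases hi : c L = i
        · rw [List.filter_cons_of_pos (by simpa using hi), List.filter_cons_of_pos (by simpa using hb),
            List.map_cons, List.sum_cons, if_pos hi.symm]
        · rw [List.filter_cons_of_neg (by simpa using hi), if_neg (fun e => hi e.symm), zero_add]
      simp only [e]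
      rw [Finset.sum_add_distrib, Finset.sum_ite_eq', if_pos (Finset.mem_Icc.2 hc)]
    · rw [List.filter_cons_of_neg (by simpa using hb), ← ih]
      refine Finset.sum_congr rfl (fun i _ => ?_)
      by_cases hi : c L = i
      · rw [List.filter_cons_of_pos (by simpa using hi), List.filter_cons_of_neg (by simpa using hb)]
      · rw [List.filter_cons_of_neg (by simpa using hi)]

theorem sq_core {ι : Type*} (Ls : List ι) (sz c : ι → ℕ) (bad : ι → Prop) [DecidablePred bad] (k : ℕ) (d : ℕ → ℕ)
    (hpos : ∀ L ∈ Ls, 1 ≤ sz L)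
    (hfull : ∀ i, 1 ≤ i → i ≤ k → ((Ls.filter (fun L => c L = i)).map sz).sum = d i)
    (hd : ∀ i, 1 ≤ i → i ≤ k → 1 ≤ d i) (hc : ∀ L ∈ Ls, c L ≤ k) (hbad : ∀ L ∈ Ls, bad L → 1 ≤ c L)
    (hsum : ∑ i ∈ Finset.Icc 1 k, d i ^ 2 ≤ ((Ls.filter (fun L => bad L)).map (fun L => sz L ^ 2)).sum) :
    (∀ i, 1 ≤ i → i ≤ k → ∃ L, Ls.filter (fun L => c L = i) = [L] ∧ bad L ∧ sz L = d i) ∧
    ∑ i ∈ Finset.Icc 1 k, d i ^ 2 = ((Ls.filter (fun L => bad L)).map (fun L => sz L ^ 2)).sum := by
  have hS := A5_sum sz c bad k Ls (fun L hL hb => ⟨hbad L hL hb, hc L hL⟩)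
  rw [← hS] at hsum ⊢
  have hle : ∀ i ∈ Finset.Icc 1 k,
      (((Ls.filter (fun L => c L = i)).filter (fun L => bad L)).map (fun L => sz L ^ 2)).sum ≤ d i ^ 2 := by
    intro i hi
    obtain ⟨h1, h2⟩ := Finset.mem_Icc.1 hi
    have := A5_le sz bad (Ls.filter (fun L => c L = i))
    rwa [hfull i h1 h2] at this
  have heq := le_antisymm hsum (Finset.sum_le_sum hle)
  refine ⟨?_, heq⟩
  intro i h1 h2
  have hi : (((Ls.filter (fun L => c L = i)).filter (fun L => bad L)).map (fun L => sz L ^ 2)).sum = d i ^ 2 :=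
    (Finset.sum_eq_sum_iff_of_le hle).1 heq.symm i (Finset.mem_Icc.2 ⟨h1, h2⟩)
  obtain ⟨L, hL, hb⟩ := A5_eq sz bad (Ls.filter (fun L => c L = i))
    (fun L hL => hpos L (List.mem_filter.1 hL).1) (by rw [hfull i h1 h2]; exact hd i h1 h2)
    (by rw [hfull i h1 h2]; exact hi)
  refine ⟨L, hL, hb, ?_⟩
  have := hfull i h1 h2
  rw [hL] at this
  simpa using this

end Pool.Agent.Bht.BK.CZ
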