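import Pool.Agent.Bht.CZ.A2
import Pool.Agent.Bht.CZ.A4
import Pool.Agent.Bht.CZ.A5

namespace Pool.Agent.Bht.BK.CZ

open Pool.Agent.H25

variable {K : Type*} [Field K]

section A6
open Classical

private lemma A6_lv (L : LT (ℕ × ℕ)) : L.leaves.length = L.shape.lv := length_leaves L

private lemma A6_lv_pos (s : BT) : 1 ≤ s.lv := BT.lv_pos s

private lemma A6_ne (L : LT (ℕ × ℕ)) : ∃ x, x ∈ L.leaves := by
  have h1 := A6_lv L
  have h2 := A6_lv_pos L.shape
  cases hL : L.leaves with
  | nil => rw [hL] at h1; simp at h1; omega
  | cons x l => exact ⟨x, by simp⟩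

private lemma A6_excl {i j : ℕ} {L : LT (ℕ × ℕ)} (hi : InC i L) (hj : InC j L) : i = j := by
  obtain ⟨x, hx⟩ := A6_ne L
  rw [← hi x hx, ← hj x hx]

private lemma A6_InC_map (c d : ℕ) (L : LT ℕ) : InC d (LT.map (fun x => (c, x)) L) ↔ c = d := by
  constructor
  · intro h
    have h1 : InC c (LT.map (fun x : ℕ => (c, x)) L) := by
      intro x hx
      rw [leaves_map, List.mem_map] at hx
      obtain ⟨y, _, rfl⟩ := hx
      rfl
    exact A6_excl h1 h
  · rintro rfl
    intro x hx
    rw [leaves_map, List.mem_map] at hx
    obtain ⟨y, _, rfl⟩ := hx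
    rfl

private lemma A6_map_map (c : ℕ) (L : LT ℕ) : LT.map Prod.snd (LT.map (fun x : ℕ => (c, x)) L) = L := by
  induction L with
  | leaf x => rfl
  | node a b iha ihb => simp only [LT.map, iha, ihb]

/-- interleave the alive labelled trees and the labelled trees of the dead shapes -/
private noncomputable def A6_mix (P : BT → Prop) (LD : ℕ → LT ℕ) :
    List BT → ℕ → List (LT ℕ) → List (LT (ℕ × ℕ))
  | [], _, G => G.map (LT.map (fun x => (0, x)))
  | h :: hs, i, G =>
    if P h then
      match G with
      | [] => []
      | g :: G' => LT.map (fun x => (0, x)) g :: A6_mix P LD hs i G'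
    else LT.map (fun x => (i + 1, x)) (LD i) :: A6_mix P LD hs (i + 1) G

private lemma A6_mix_shape (P : BT → Prop) (LD : ℕ → LT ℕ) (l : List BT) :
    ∀ (hs : List BT) (i : ℕ) (G : List (LT ℕ)), G.map LT.shape = hs.filter (fun h => P h) ++ l →
      (∀ j (hj : j < (hs.filter (fun h => ¬ P h)).length),
        (LD (i + j)).shape = (hs.filter (fun h => ¬ P h))[j]) →
      (A6_mix P LD hs i G).map LT.shape = hs ++ l := by
  intro hs
  induction hs with
  | nil =>
    intro i G hG _
    simp only [A6_mix, List.map_map, List.nil_append, List.filter_nil] at hG ⊢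
    rw [← hG]
    apply List.map_congr_left
    intro L _
    exact shape_map _ L
  | cons h hs ih =>
    intro i G hG hD
    by_cases hP : P h
    · rw [List.filter_cons_of_pos (by simpa using hP)] at hG
      rw [List.filter_cons_of_neg (by simpa using hP)] at hD
      cases G with
      | nil => simp at hG
      | cons g G' =>
        simp only [List.map_cons, List.cons_append, List.cons.injEq] at hG
        simp only [A6_mix, if_pos hP, List.map_cons, List.cons_append, List.cons.injEq]
        refine ⟨(shape_map _ g).trans hG.1, ih i G' hG.2 hD⟩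
    · rw [List.filter_cons_of_neg (by simpa using hP)] at hG
      rw [List.filter_cons_of_pos (by simpa using hP)] at hD
      simp only [A6_mix, if_neg hP, List.map_cons, List.cons_append, List.cons.injEq]
      refine ⟨(shape_map _ _).trans ?_, ih (i + 1) G hG ?_⟩
      · have := hD 0 (by simp)
        simpa using this
      · intro j hj
        have := hD (j + 1) (by simpa using hj)
        simp only [List.getElem_cons_succ] at this
        rw [← this]
        congr 2
        omega

private lemma A6_mix_zero (P : BT → Prop) (LD : ℕ → LT ℕ) (l : List BT) :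
    ∀ (hs : List BT) (i : ℕ) (G : List (LT ℕ)), G.map LT.shape = hs.filter (fun h => P h) ++ l →
      ((A6_mix P LD hs i G).filter (fun L => InC 0 L)).map (LT.map Prod.snd) = G := by
  intro hs
  induction hs with
  | nil =>
    intro i G _
    simp only [A6_mix]
    rw [List.filter_eq_self.mpr]
    · rw [List.map_map]
      conv_rhs => rw [← List.map_id G]
      apply List.map_congr_left
      intro L _
      exact A6_map_map 0 L
    · intro L hL
      rw [List.mem_map] at hL
      obtain ⟨M, _, rfl⟩ := hL
      simpa using (A6_InC_map 0 0 M).mpr rfl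
  | cons h hs ih =>
    intro i G hG
    by_cases hP : P h
    · rw [List.filter_cons_of_pos (by simpa using hP)] at hG
      cases G with
      | nil => simp at hG
      | cons g G' =>
        simp only [List.map_cons, List.cons_append, List.cons.injEq] at hG
        simp only [A6_mix, if_pos hP]
        rw [List.filter_cons_of_pos (by simpa using (A6_InC_map 0 0 g).mpr rfl), List.map_cons,
          A6_map_map, ih i G' hG.2]
    · rw [List.filter_cons_of_neg (by simpa using hP)] at hG
      simp only [A6_mix, if_neg hP]
      rw [List.filter_cons_of_neg, ih (i + 1) G hG]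
      simp only [decide_eq_true_eq]
      rw [A6_InC_map]
      omega

private lemma A6_mix_pos (P : BT → Prop) (LD : ℕ → LT ℕ) (l : List BT) (c : ℕ) :
    ∀ (hs : List BT) (i : ℕ) (G : List (LT ℕ)), G.map LT.shape = hs.filter (fun h => P h) ++ l →
      ((A6_mix P LD hs i G).filter (fun L => InC (c + 1) L)).map (LT.map Prod.snd) =
        if i ≤ c ∧ c < i + (hs.filter (fun h => ¬ P h)).length then [LD c] else [] := by
  intro hs
  induction hs with
  | nil =>
    intro i G _
    simp only [A6_mix, List.filter_nil, List.length_nil]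
    rw [if_neg (by omega), List.filter_eq_nil_iff.mpr, List.map_nil]
    intro L hL
    rw [List.mem_map] at hL
    obtain ⟨M, _, rfl⟩ := hL
    simp only [decide_eq_true_eq]
    rw [A6_InC_map]
    omega
  | cons h hs ih =>
    intro i G hG
    by_cases hP : P h
    · rw [List.filter_cons_of_pos (by simpa using hP)] at hG
      cases G with
      | nil => simp at hG
      | cons g G' =>
        simp only [List.map_cons, List.cons_append, List.cons.injEq] at hG
        simp only [A6_mix, if_pos hP]
        rw [List.filter_cons_of_neg, ih i G' hG.2, List.filter_cons_of_neg (by simpa using hP)]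
        simp only [decide_eq_true_eq]
        rw [A6_InC_map]
        omega
    · rw [List.filter_cons_of_neg (by simpa using hP)] at hG
      simp only [A6_mix, if_neg hP]
      rw [List.filter_cons_of_pos (l := hs) (by simpa using hP), List.length_cons]
      by_cases hc : i = c
      · subst hc
        rw [List.filter_cons_of_pos (by simpa using (A6_InC_map (i + 1) (i + 1) (LD i)).mpr rfl), List.map_cons,
          A6_map_map, ih (i + 1) G hG, if_neg (by omega), if_pos (by omega)]
      · rw [List.filter_cons_of_neg, ih (i + 1) G hG]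
        · by_cases h2 : i + 1 ≤ c ∧ c < i + 1 + (hs.filter (fun h => ¬ P h)).length
          · rw [if_pos h2, if_pos (by omega)]
          · rw [if_neg h2, if_neg (by omega)]
        · simp only [decide_eq_true_eq]
          rw [A6_InC_map]
          omega

private lemma A6_mix_pure (P : BT → Prop) (LD : ℕ → LT ℕ) (l : List BT) :
    ∀ (hs : List BT) (i : ℕ) (G : List (LT ℕ)), G.map LT.shape = hs.filter (fun h => P h) ++ l →
      ∀ L ∈ A6_mix P LD hs i G, ∃ c, c < i + (hs.filter (fun h => ¬ P h)).length + 1 ∧ InC c L := by
  intro hs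
  induction hs with
  | nil =>
    intro i G _ L hL
    simp only [A6_mix, List.mem_map] at hL
    obtain ⟨M, _, rfl⟩ := hL
    exact ⟨0, by omega, (A6_InC_map 0 0 M).mpr rfl⟩
  | cons h hs ih =>
    intro i G hG L hL
    by_cases hP : P h
    · rw [List.filter_cons_of_pos (by simpa using hP)] at hG
      rw [List.filter_cons_of_neg (by simpa using hP)]
      cases G with
      | nil => simp at hG
      | cons g G' =>
        simp only [List.map_cons, List.cons_append, List.cons.injEq] at hG
        simp only [A6_mix, if_pos hP, List.mem_cons] at hL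
        rcases hL with rfl | hL
        · exact ⟨0, by omega, (A6_InC_map 0 0 g).mpr rfl⟩
        · exact ih i G' hG.2 L hL
    · rw [List.filter_cons_of_neg (by simpa using hP)] at hG
      rw [List.filter_cons_of_pos (by simpa using hP), List.length_cons]
      simp only [A6_mix, if_neg hP, List.mem_cons] at hL
      rcases hL with rfl | hL
      · exact ⟨i + 1, by omega, (A6_InC_map (i + 1) (i + 1) (LD i)).mpr rfl⟩
      · obtain ⟨c, hc, h2⟩ := ih (i + 1) G hG L hL
        exact ⟨c, by omega, h2⟩

private lemma A6_count_word (k : ℕ) : ∀ w : List (ℕ × ℕ), (∀ x ∈ w, x.1 < k + 1) →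
    w.countP (fun x => x.1 ≠ 0) = ∑ i ∈ Finset.range k,
      (w.filterMap (fun x => if x.1 = i + 1 then some x.2 else none)).length := by
  intro w
  induction w with
  | nil => intro _; simp
  | cons x w ih =>
    intro hw
    rw [List.countP_cons, ih (fun y hy => hw y (List.mem_cons_of_mem _ hy))]
    have hx := hw x (by simp)
    have h1 : ∀ i, ((x :: w).filterMap (fun x => if x.1 = i + 1 then some x.2 else none)).length =
        (w.filterMap (fun x => if x.1 = i + 1 then some x.2 else none)).length +
          (if x.1 = i + 1 then 1 else 0) := by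
      intro i
      rw [List.filterMap_cons]
      by_cases h : x.1 = i + 1
      · simp [h]
      · simp [h]
    simp only [h1, Finset.sum_add_distrib]
    congr 1
    by_cases h0 : x.1 = 0
    · simp [h0]
    · obtain ⟨m, hm⟩ : ∃ m, x.1 = m + 1 := ⟨x.1 - 1, by omega⟩
      rw [hm] at hx ⊢
      have h2 : ∀ i, (m + 1 = i + 1) ↔ (i = m) := by intro i; omega
      simp only [h2]
      rw [Finset.sum_ite_eq' (Finset.range k) m (fun _ => 1), if_pos (Finset.mem_range.mpr (by omega))]
      simp

private lemma A6_count_tree (L : LT (ℕ × ℕ)) {c : ℕ} (hc : InC c L) :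
    L.leaves.countP (fun x => x.1 ≠ 0) = if InC 0 L then 0 else L.shape.lv := by
  by_cases h : InC 0 L
  · rw [if_pos h, List.countP_eq_zero]
    intro x hx
    simp [h x hx]
  · rw [if_neg h, ← A6_lv, List.countP_eq_length]
    intro x hx
    have hne : c ≠ 0 := by
      rintro rfl
      exact h hc
    simp [hc x hx, hne]

private lemma A6_count (k : ℕ) (φ : ℕ → List ℕ → K) (d : ℕ → ℕ)
    (hd : ∀ i < k, ∀ w, φ (i + 1) w ≠ 0 → w.length = d i) (Ls : List (LT (ℕ × ℕ)))
    (hp : ∀ L ∈ Ls, ∃ i < k + 1, InC i L) (h : pv Ls (shuf (k + 1) φ) ≠ 0) :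
    (Ls.map (fun L => if InC 0 L then 0 else L.shape.lv)).sum = ∑ i ∈ Finset.range k, d i := by
  obtain ⟨w, hw, hne⟩ := exists_perm_of_pv_ne Ls h
  have hlt : ∀ x ∈ w, x.1 < k + 1 := by
    by_contra hc
    apply hne
    unfold shuf
    rw [if_neg hc]
  have h1 : w.countP (fun x => x.1 ≠ 0) = (Ls.map (fun L => if InC 0 L then 0 else L.shape.lv)).sum := by
    rw [hw.countP_eq]
    clear hw hne hlt h
    induction Ls with
    | nil => simp
    | cons L Ls ih =>
      rw [List.flatMap_cons, List.countP_append, List.map_cons, List.sum_cons,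
        ih (fun M hM => hp M (List.mem_cons_of_mem _ hM))]
      obtain ⟨c, _, hc⟩ := hp L (by simp)
      rw [A6_count_tree L hc]
  rw [← h1, A6_count_word k w hlt]
  apply Finset.sum_congr rfl
  intro i hi
  apply hd i (Finset.mem_range.mp hi)
  intro hz
  apply hne
  unfold shuf
  rw [if_pos hlt]
  exact Finset.prod_eq_zero (Finset.mem_range.mpr (by have := Finset.mem_range.mp hi; omega)) hz

private lemma A6_sum_getD : ∀ l : List ℕ, ∑ i ∈ Finset.range l.length, l.getD i 0 = l.sum
  | [] => by simp
  | a :: l => by
    rw [List.length_cons, Finset.sum_range_succ', List.sum_cons, add_comm]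
    simp only [List.getD_cons_succ, List.getD_cons_zero]
    rw [A6_sum_getD l]

private lemma A6_sum_filter (P : BT → Prop) (hs : List BT) :
    ((hs.filter (fun h => ¬ P h)).map BT.lv).sum = (hs.map (fun h => if P h then 0 else h.lv)).sum := by
  induction hs with
  | nil => simp
  | cons h hs ih =>
    by_cases hP : P h
    · rw [List.filter_cons_of_neg (by simpa using hP), ih, List.map_cons, List.sum_cons, if_pos hP, zero_add]
    · rw [List.filter_cons_of_pos (by simpa using hP), List.map_cons, List.sum_cons, ih, List.map_cons,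
        List.sum_cons, if_neg hP]

private lemma A6_sum_le {ι : Type*} (l : List ι) (w W : ι → ℕ) (h : ∀ x ∈ l, w x ≤ W x) :
    (l.map w).sum ≤ (l.map W).sum := by
  induction l with
  | nil => simp
  | cons x l ih =>
    rw [List.map_cons, List.sum_cons, List.map_cons, List.sum_cons]
    have h1 := h x (by simp)
    have h2 := ih (fun y hy => h y (List.mem_cons_of_mem _ hy))
    omega

private lemma A6_sum_eq {ι : Type*} (l : List ι) (w W : ι → ℕ) (h : ∀ x ∈ l, w x ≤ W x)
    (hs : (l.map W).sum ≤ (l.map w).sum) : ∀ x ∈ l, W x = w x := by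
  induction l with
  | nil => intro x hx; simp at hx
  | cons x l ih =>
    rw [List.map_cons, List.sum_cons, List.map_cons, List.sum_cons] at hs
    have h1 := h x (by simp)
    have h2 := A6_sum_le l w W (fun y hy => h y (List.mem_cons_of_mem _ hy))
    intro y hy
    rcases List.mem_cons.mp hy with rfl | hy
    · omega
    · exact ih (fun z hz => h z (List.mem_cons_of_mem _ hz)) (by omega) y hy

end A6

/-! ## A6 penalty lemma, no extra block -/
theorem pen2 {J J1 : BT → Prop} (hJ : ∀ U, J U → J1 U) (hs : List BT) (hhs : ∀ h ∈ hs, NI K J h)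
    (S S' : List (List BT)) (hU : UA K J (PP hs S') ⊆ UA K J (PP hs S)) :
    UA K J1 (PP (fil K J1 hs) S') ⊆ UA K J1 (PP (fil K J1 hs) S) := by
  classical
  intro ρ hρ
  obtain ⟨hρK, hρA⟩ := hρ
  set P : BT → Prop := fun h => NI K J1 h with hP
  set D : List BT := hs.filter (fun h => ¬ P h) with hD
  have hDN : ∀ j (hj : j < D.length), NI K J D[j] := fun j hj =>
    hhs _ (List.mem_of_mem_filter (List.getElem_mem hj))
  have hN : ∀ j, ∃ φ : List ℕ → K, ∃ L : LT ℕ, ∀ hj : j < D.length, KI J φ ∧ Sp (D[j]).lv φ ∧
      L.shape = D[j] ∧ L.val φ ≠ 0 := by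
    intro j
    by_cases hj : j < D.length
    · obtain ⟨φ, h1, h2, L, h3, _, h4⟩ := NI_normal (hDN j hj)
      exact ⟨φ, L, fun _ => ⟨h1, h2, h3, h4⟩⟩
    · exact ⟨fun _ => 0, LT.leaf 0, fun h => absurd h hj⟩
  choose φD LD hLD using hN
  set φ : ℕ → List ℕ → K := fun i => match i with
    | 0 => ρ
    | i + 1 => φD i with hφ
  set k := D.length with hk
  have hKρ : KI J ρ := fun U hU => hρK U (hJ _ hU)
  have hKI : KI J (shuf (k + 1) φ) := by
    apply KI_shuf
    intro i hi
    cases i with
    | zero => exact hKρ
    | succ i => exact (hLD i (by omega)).1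
  have hdl : ∀ i < k, ∀ w, φ (i + 1) w ≠ 0 → w.length = (D.map BT.lv).getD i 0 := by
    intro i hi w hw
    have h1 := (hLD i hi).2.1 w hw
    rw [h1.length_eq, List.length_range, List.getD_eq_getElem _ _ (by simpa using hi), List.getElem_map]
  have hsumD : ∑ i ∈ Finset.range k, (D.map BT.lv).getD i 0 = (D.map BT.lv).sum := by
    have h1 : k = (D.map BT.lv).length := by simp [hk]
    rw [h1]
    exact A6_sum_getD _
  have hann : Ann (PP hs S') (shuf (k + 1) φ) := by
    intro l hl Ls hLs
    unfold PP at hl
    rw [List.mem_map] at hl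
    obtain ⟨m, hm, rfl⟩ := hl
    by_contra hne
    have hpure := pv_shuf_pure (k + 1) φ Ls hne
    have hprod := pv_shuf_eq (k + 1) φ Ls hpure
    have h0 : pv ((Ls.filter (fun L => InC 0 L)).map (LT.map Prod.snd)) ρ ≠ 0 := by
      intro hz
      apply hne
      rw [hprod]
      exact Finset.prod_eq_zero (Finset.mem_range.mpr (Nat.succ_pos k)) hz
    have hdead : ∀ L ∈ Ls, ¬ P L.shape → ¬ InC 0 L := by
      intro L hL hPL hC
      apply h0
      refine Ann_of_not_NI (l := ((Ls.filter (fun L => InC 0 L)).map (LT.map Prod.snd)).map LT.shape)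
        (h := L.shape) hρK ?_ hPL _ (List.mem_singleton.mpr rfl) _ rfl
      rw [List.map_map, List.mem_map]
      refine ⟨L, List.mem_filter.mpr ⟨hL, by simpa using hC⟩, ?_⟩
      exact shape_map _ L
    have hcount := A6_count k φ (fun i => (D.map BT.lv).getD i 0) hdl Ls hpure hne
    rw [hsumD] at hcount
    obtain ⟨La, Lb, rfl, hLa, hLb⟩ := List.map_eq_append_iff.mp hLs
    rw [List.map_append, List.sum_append] at hcount
    have hDs : (D.map BT.lv).sum = (La.map (fun L => if P L.shape then 0 else L.shape.lv)).sum := by
      rw [hD, A6_sum_filter, ← hLa, List.map_map]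
      rfl
    rw [hDs] at hcount
    have hle : ∀ L ∈ La, (if P L.shape then 0 else L.shape.lv) ≤ (if InC 0 L then 0 else L.shape.lv) := by
      intro L hL
      by_cases hPL : P L.shape
      · rw [if_pos hPL]
        exact Nat.zero_le _
      · rw [if_neg hPL, if_neg (hdead L (List.mem_append_left _ hL) hPL)]
    have hle2 := A6_sum_le La _ _ hle
    have hEq := A6_sum_eq La _ _ hle (by omega)
    have hB : (Lb.map (fun L => if InC 0 L then 0 else L.shape.lv)).sum = 0 := by omega
    have hB0 : ∀ L ∈ Lb, InC 0 L := by
      intro L hL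
      by_contra hC
      have h1 := (List.sum_eq_zero_iff.mp hB) _ (List.mem_map_of_mem hL)
      rw [if_neg hC] at h1
      have := BT.lv_pos L.shape
      omega
    have hA0 : ∀ L ∈ La, (InC 0 L ↔ P L.shape) := by
      intro L hL
      constructor
      · intro hC
        by_contra hPL
        exact hdead L (List.mem_append_left _ hL) hPL hC
      · intro hPL
        by_contra hC
        have h1 := hEq L hL
        rw [if_pos hPL, if_neg hC] at h1
        have := BT.lv_pos L.shape
        omega
    apply h0
    apply hρA (fil K J1 hs ++ m) (List.mem_map_of_mem hm)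
    rw [List.filter_append, List.map_append, List.map_append]
    congr 1
    · unfold fil
      rw [← hLa, List.filter_map, List.map_map, List.filter_congr (q := fun L => decide (P L.shape))]
      · apply List.map_congr_left
        intro L _
        exact shape_map _ L
      · intro L hL
        simp only [hA0 L hL]
    · rw [List.filter_eq_self.mpr, List.map_map, ← hLb]
      · apply List.map_congr_left
        intro L _
        exact shape_map _ L
      · intro L hL
        simpa using hB0 L hL
  have hann2 := UA_transfer hU hKI hann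
  refine ⟨hρK, ?_⟩
  intro l hl G hG
  unfold PP at hl
  rw [List.mem_map] at hl
  obtain ⟨m, hm, rfl⟩ := hl
  have hG' : G.map LT.shape = hs.filter (fun h => P h) ++ m := hG
  have hsh := A6_mix_shape P LD m hs 0 G hG' (by
    intro j hj
    rw [Nat.zero_add]
    exact (hLD j hj).2.2.1)
  have hz := hann2 (hs ++ m) (List.mem_map_of_mem hm) (A6_mix P LD hs 0 G) hsh
  have hpure : ∀ L ∈ A6_mix P LD hs 0 G, ∃ i < k + 1, InC i L := by
    intro L hL
    obtain ⟨c, hc, h2⟩ := A6_mix_pure P LD m hs 0 G hG' L hL
    have hc2 : c < 0 + k + 1 := hc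
    exact ⟨c, by omega, h2⟩
  rw [pv_shuf_eq (k + 1) φ _ hpure, Finset.prod_eq_zero_iff] at hz
  obtain ⟨i, hi, hz⟩ := hz
  rw [Finset.mem_range] at hi
  cases i with
  | zero =>
    rw [A6_mix_zero P LD m hs 0 G hG'] at hz
    exact hz
  | succ c =>
    exfalso
    have hkc : c < (hs.filter (fun h => ¬ P h)).length := (show c < k by omega)
    rw [A6_mix_pos P LD m c hs 0 G hG', if_pos (by constructor <;> first | exact Nat.zero_le _ | omega)] at hz
    apply (hLD c (by omega)).2.2.2
    simpa only [pv, List.append_nil] using hz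

end Pool.Agent.Bht.BK.CZ
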