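import Pool.Agent.Bht.CZ.A2
import Pool.Agent.Bht.CZ.A4

namespace Pool.Agent.Bht.BK.CZ

open Pool.Agent.H25

variable {K : Type*} [Field K]

/-! ## A8 products are not zero -/

private lemma a8_exists_leaf {α : Type} (T : LT α) : ∃ x, x ∈ T.leaves := by
  induction T with
  | leaf x => exact ⟨x, by simp [LT.leaves]⟩
  | node a b iha _ =>
    obtain ⟨x, hx⟩ := iha
    exact ⟨x, by rw [LT.leaves, List.mem_append]; exact Or.inl hx⟩

private lemma a8_map_map {α β γ : Type} (f : α → β) (g : β → γ) (L : LT α) :
    LT.map g (LT.map f L) = LT.map (g ∘ f) L := by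
  induction L with
  | leaf x => rfl
  | node a b iha ihb => simp only [LT.map, iha, ihb]

private lemma a8_map_id {α : Type} (L : LT α) : LT.map (fun x => x) L = L := by
  induction L with
  | leaf x => rfl
  | node a b iha ihb => simp only [LT.map, iha, ihb]

open Classical in
private lemma a8_nonzero {J : BT → Prop} (cs : List BT) (hc : ∀ h ∈ cs, NI K J h) :
    ∃ φ : List (ℕ × ℕ) → K, KI J φ ∧ ∃ Ls : List (LT (ℕ × ℕ)), Ls.map LT.shape = cs ∧
      pv Ls φ ≠ 0 := by
  have hc' : ∀ h : BT, NI K J h → ∃ p : (List ℕ → K) × LT ℕ,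
      KI J p.1 ∧ p.2.shape = h ∧ p.2.val p.1 ≠ 0 := by
    rintro h ⟨φ, h1, L, h2, h3⟩
    exact ⟨(φ, L), h1, h2, h3⟩
  have : Nonempty ((List ℕ → K) × LT ℕ) := ⟨(fun _ => 0, LT.leaf 0)⟩
  choose! p hp using hc'
  set k := cs.length with hk
  have hget : ∀ i, i < k → cs.getD i BT.leaf ∈ cs := by
    intro i hi
    rw [List.getD_eq_getElem _ _ (by rw [← hk]; exact hi)]
    exact List.getElem_mem _
  set φ : ℕ → List ℕ → K := fun i => (p (cs.getD i BT.leaf)).1 with hφ
  set G : ℕ → LT (ℕ × ℕ) := fun i => LT.map (fun x => (i, x)) (p (cs.getD i BT.leaf)).2 with hG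
  have hInC : ∀ i j, InC i (G j) ↔ j = i := by
    intro i j
    constructor
    · intro h
      obtain ⟨x, hx⟩ := a8_exists_leaf (G j)
      have h1 := h x hx
      rw [hG] at hx
      simp only [leaves_map, List.mem_map] at hx
      obtain ⟨y, _, rfl⟩ := hx
      exact h1
    · rintro rfl x hx
      rw [hG] at hx
      simp only [leaves_map, List.mem_map] at hx
      obtain ⟨y, _, rfl⟩ := hx
      rfl
  refine ⟨shuf k φ, KI_shuf k φ (fun i hi => (hp _ (hc _ (hget i hi))).1),
    (List.range k).map G, ?_, ?_⟩
  · rw [List.map_map]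
    apply List.ext_getElem
    · simp [hk]
    · intro i h1 h2
      simp only [List.getElem_map, List.getElem_range, Function.comp]
      rw [hG]
      simp only [shape_map]
      have h3 : cs.getD i BT.leaf = cs[i] := List.getD_eq_getElem _ _ h2
      rw [h3]
      exact (hp _ (hc _ (List.getElem_mem _))).2.1
  · rw [pv_shuf_eq]
    · rw [Finset.prod_ne_zero_iff]
      intro i hi
      rw [Finset.mem_range] at hi
      have hf : ((List.range k).map G).filter (fun L => decide (InC i L)) = [G i] := by
        rw [List.filter_map]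
        have h1 : ((fun L => decide (InC i L)) ∘ G) = fun j => decide (j = i) := by
          funext j
          simp only [Function.comp, hInC]
        have h6 : ∀ l : List ℕ, l.filter (fun j => decide (j = i)) = l.filter (fun j => j == i) := by
          intro l
          apply List.filter_congr
          intro x _
          by_cases hx : x = i
          · subst hx; simp
          · simp [hx]
        have h5 : (List.range k).filter (fun j => decide (j = i)) = [i] := by
          rw [h6, List.filter_beq,
            List.count_eq_one_of_mem List.nodup_range (List.mem_range.2 hi)]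
          rfl
        rw [h1, h5]
        rfl
      rw [hf, List.map_cons, List.map_nil, pv]
      simp only [pv, List.append_nil]
      rw [hG]
      simp only [a8_map_map]
      have h2 : (Prod.snd ∘ fun x : ℕ => (i, x)) = fun x => x := rfl
      rw [h2, a8_map_id]
      exact (hp _ (hc _ (hget i hi))).2.2
    · intro L hL
      rw [List.mem_map] at hL
      obtain ⟨i, hi, rfl⟩ := hL
      exact ⟨i, List.mem_range.1 hi, (hInC i i).2 rfl⟩

private lemma a8_path (X : BT) : ∃ l ∈ paths X, ∀ h ∈ l, h.lv < X.lv := by
  induction X with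
  | leaf => exact ⟨[], by simp [paths], by simp⟩
  | node a b iha _ =>
    obtain ⟨l, hl, hl2⟩ := iha
    refine ⟨b :: l, ?_, ?_⟩
    · rw [paths, List.mem_append]
      exact Or.inl (List.mem_map.2 ⟨l, hl, rfl⟩)
    · intro h hh
      have ha := BT.lv_pos a
      have hb := BT.lv_pos b
      rw [BT.lv]
      rw [List.mem_cons] at hh
      rcases hh with rfl | hh
      · omega
      · have := hl2 h hh
        omega

theorem nonzero {J : BT → Prop} (X : BT) (hJ : ∀ U, J U → X.lv ≤ U.lv) (hs : List BT)
    (hhs : ∀ h ∈ hs, NI K J h) : ¬ (UA K J [] ⊆ UA K J (PP hs (paths X))) := by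
  intro hsub
  obtain ⟨l, hl, hl2⟩ := a8_path X
  obtain ⟨φ, hφ, Ls, hLs, hne⟩ := a8_nonzero (K := K) (J := J) (hs ++ l) (by
    intro h hh
    rw [List.mem_append] at hh
    rcases hh with hh | hh
    · exact hhs h hh
    · exact NI_small (fun U hU => lt_of_lt_of_le (hl2 h hh) (hJ U hU)))
  have hA := UA_transfer hsub hφ (fun l hl => by simp at hl)
  exact hne (hA (hs ++ l) (List.mem_map.2 ⟨l, hl, rfl⟩) Ls hLs)

end Pool.Agent.Bht.BK.CZ
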