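import Pool.Agent.Bht.CZ.A2
import Pool.Agent.Bht.BK.R2
import Pool.Agent.Bht.BK.R9

namespace Pool.Agent.Bht.BK.CZ

open Pool.Agent.H25

variable {K : Type*} [Field K]

private def d4Dec : Lt → ℕ
  | Lt.mark i => i
  | Lt.bl _ _ => 0

private lemma d4_dec_mark (w : List ℕ) : (w.map Lt.mark).map d4Dec = w := by
  rw [List.map_map]
  exact List.map_id w

/-- killing and inclusion -/
theorem kl_iff {X Y : BT} {q : ℕ} (hX : X.lv = q) (hY : Y.lv = q) :
    (∀ f : List ℕ → K, Sp q f → kl f Y → kl f X) ↔ X0 K X ≤ X0 K Y := by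
  classical
  constructor
  · intro h
    by_contra hc
    obtain ⟨ψ, ⟨S, hS, hSl, hSv⟩, hψ⟩ := exists_psi (X0 K Y) X hc
    have hf : ∀ L : LT ℕ, L.leaves.Perm (List.range q) →
        L.val (fun w => if w.Perm (List.range q) then ψ w else 0) = L.val ψ := fun L hL =>
      val_congr L fun w hw => by
        simp only [if_pos (hw.trans hL)]
    have h1 := h (fun w => if w.Perm (List.range q) then ψ w else 0) (by
      intro w hw
      by_contra hn
      exact hw (if_neg hn)) (by
      intro L hL
      by_cases hp : L.leaves.Perm (List.range q)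
      · rw [hf L hp]
        exact hψ L (by rw [hL])
      · refine (val_congr L (χ := fun _ => (0 : K)) fun w hw => ?_).trans (val_zero L)
        rw [if_neg fun hn => hp (hw.symm.trans hn)])
    apply hSv
    rw [← hf S (by rw [hSl, hX])]
    exact h1 S hS
  · intro h f _ hY' L hL
    by_contra hne
    obtain ⟨M, hM, hMv⟩ := bridge h (fun w => f (w.map d4Dec)) (L.map Lt.mark)
      (by rw [shape_map, hL]) (by
        rw [val_map]
        simp only [d4_dec_mark]
        exact hne)
    apply hMv
    rw [← val_map d4Dec M f]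
    exact hY' (M.map d4Dec) (by rw [shape_map, hM])

end Pool.Agent.Bht.BK.CZ
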