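import Pool.Agent.Bht.CZ.Sig

namespace Pool.Agent.Bht.BK.CZ

open Pool.Agent.H25

/-- set theory of Step 3, a common child: `c`, `C` for the common child, `d`, `D` and `d'`, `D'` for the others -/
theorem lin1 {F Ω : Type*} (Z C D D' : Set Ω) (c d d' : Set F) (hC : C ⊂ Z) (hD : D ⊂ Z) (hD' : D' ⊂ Z)
    (m1 : c ⊆ d → C ⊆ D) (m2 : d ⊆ c → D ⊆ C) (m3 : c ⊆ d' → C ⊆ D') (m4 : d' ⊆ c → D' ⊆ C)
    (H : ∀ f : F, ∀ x ∈ Z, ((f ∉ c → x ∈ D) ∧ (f ∉ d → x ∈ C)) ↔ ((f ∉ c → x ∈ D') ∧ (f ∉ d' → x ∈ C))) :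
    D = D' ∨ d = d' := by
  classical
  have hDZ := hD.1
  have hDZ' := hD'.1
  by_cases h1 : ∃ f, f ∉ c ∧ f ∈ d ∧ f ∈ d'
  · obtain ⟨f, hf, hd, hd'⟩ := h1
    left
    ext x
    constructor
    · intro hx
      have := (H f x (hDZ hx)).1 ⟨fun _ => hx, fun h => absurd hd h⟩
      exact this.1 hf
    · intro hx
      have := (H f x (hDZ' hx)).2 ⟨fun _ => hx, fun h => absurd hd' h⟩
      exact this.1 hf
  have h1' : ∀ f, f ∉ c → f ∈ d → f ∉ d' := fun f hf hd hd' => h1 ⟨f, hf, hd, hd'⟩
  by_cases e1 : ∃ f, f ∉ c ∧ f ∈ d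
  · obtain ⟨f1, hf1, hd1⟩ := e1
    have hd1' := h1' f1 hf1 hd1
    -- on Z : x ∈ D ↔ x ∈ D' ∧ x ∈ C
    have A1 : ∀ x ∈ Z, x ∈ D ↔ (x ∈ D' ∧ x ∈ C) := by
      intro x hx
      have := H f1 x hx
      constructor
      · intro h
        have h2 := this.1 ⟨fun _ => h, fun h' => absurd hd1 h'⟩
        exact ⟨h2.1 hf1, h2.2 hd1'⟩
      · intro h
        exact (this.2 ⟨fun _ => h.1, fun _ => h.2⟩).1 hf1
    by_cases e2 : ∃ f, f ∉ c ∧ f ∈ d'
    · obtain ⟨f2, hf2, hd2'⟩ := e2
      have hd2 : f2 ∉ d := fun h => h1' f2 hf2 h hd2'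
      have A2 : ∀ x ∈ Z, x ∈ D' ↔ (x ∈ D ∧ x ∈ C) := by
        intro x hx
        have := H f2 x hx
        constructor
        · intro h
          have h2 := this.2 ⟨fun _ => h, fun h' => absurd hd2' h'⟩
          exact ⟨h2.1 hf2, h2.2 hd2⟩
        · intro h
          exact (this.1 ⟨fun _ => h.1, fun _ => h.2⟩).1 hf2
      left
      ext x
      exact ⟨fun hx => ((A1 x (hDZ hx)).1 hx).1, fun hx => ((A2 x (hDZ' hx)).1 hx).1⟩
    · have hs : d' ⊆ c := by
        intro f hf
        by_contra hc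
        exact e2 ⟨f, hc, hf⟩
      have hs' := m4 hs
      left
      ext x
      exact ⟨fun hx => ((A1 x (hDZ hx)).1 hx).1, fun hx => (A1 x (hDZ' hx)).2 ⟨hx, hs' hx⟩⟩
  · have hs : d ⊆ c := by
      intro f hf
      by_contra hc
      exact e1 ⟨f, hc, hf⟩
    have hDC := m2 hs
    by_cases e2 : ∃ f, f ∉ c ∧ f ∈ d'
    · obtain ⟨f2, hf2, hd2'⟩ := e2
      have hd2 : f2 ∉ d := fun h => h1' f2 hf2 h hd2'
      have A2 : ∀ x ∈ Z, x ∈ D' ↔ (x ∈ D ∧ x ∈ C) := by
        intro x hx
        have := H f2 x hx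
        constructor
        · intro h
          have h2 := this.2 ⟨fun _ => h, fun h' => absurd hd2' h'⟩
          exact ⟨h2.1 hf2, h2.2 hd2⟩
        · intro h
          exact (this.1 ⟨fun _ => h.1, fun _ => h.2⟩).1 hf2
      left
      ext x
      exact ⟨fun hx => (A2 x (hDZ hx)).2 ⟨hx, hDC hx⟩, fun hx => ((A2 x (hDZ' hx)).1 hx).1⟩
    · have hs2 : d' ⊆ c := by
        intro f hf
        by_contra hc
        exact e2 ⟨f, hc, hf⟩
      obtain ⟨x, hxZ, hxC⟩ := Set.exists_of_ssubset hC
      right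
      ext f
      constructor
      · intro hf
        by_contra hf'
        have hc : f ∈ c := hs hf
        exact hxC (((H f x hxZ).1 ⟨fun h => absurd hc h, fun h => absurd hf h⟩).2 hf')
      · intro hf'
        by_contra hf
        have hc : f ∈ c := hs2 hf'
        exact hxC (((H f x hxZ).2 ⟨fun h => absurd hc h, fun h => absurd hf' h⟩).2 hf)

/-- set theory of Step 3, existence of a common child -/
theorem lin2 {F Ω : Type*} (Z : Set Ω) (U U' : Bool → Set Ω) (a a' : Bool → Set F) (hU : ∀ i, U i ⊂ Z)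
    (hU' : ∀ i, U' i ⊂ Z) (m : ∀ i j, a i ⊆ a j → U i ⊆ U j) (m' : ∀ i j, a' i ⊆ a' j → U' i ⊆ U' j)
    (n : ∀ i j, a i ⊆ a' j → U i ⊆ U' j) (n' : ∀ i j, a' i ⊆ a j → U' i ⊆ U j)
    (e : ∀ i j, U i = U j → a i = a j) (e' : ∀ i j, U' i = U' j → a' i = a' j)
    (H : ∀ f : F, ∀ x ∈ Z, (∀ i, f ∉ a (!i) → x ∈ U i) ↔ (∀ i, f ∉ a' (!i) → x ∈ U' i)) :
    ∃ i j, U i = U' j := by
  classical
  by_contra hno
  have hne : ∀ i j, U i ≠ U' j := fun i j h => hno ⟨i, j, h⟩
  -- the basic consequences of H for a functional alive on exactly one child of X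
  have hbool : ∀ i k : Bool, k = i ∨ k = !i := by decide
  have hUZ : ∀ i, U i ⊆ Z := fun i => (hU i).1
  have hUZ' : ∀ i, U' i ⊆ Z := fun i => (hU' i).1
  -- alive on X i only: U (!i) = U' i ∩ U' (!i) for all i
  have P : ∀ (V V' : Bool → Set Ω) (b b' : Bool → Set F), (∀ i, V i ⊂ Z) → (∀ i, V' i ⊂ Z) →
      (∀ f : F, ∀ x ∈ Z, (∀ i, f ∉ b (!i) → x ∈ V i) ↔ (∀ i, f ∉ b' (!i) → x ∈ V' i)) →
      (∀ i j, V i ≠ V' j) → ∀ (f : F) (i : Bool), f ∉ b i → f ∈ b (!i) →
      (∀ j, f ∉ b' j) ∧ ∀ x ∈ Z, x ∈ V (!i) ↔ ∀ j, x ∈ V' j := by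
    intro V V' b b' hV hV' hH hVne f i hi hi'
    have Q : ∀ x ∈ Z, x ∈ V (!i) ↔ (∀ k, f ∉ b' (!k) → x ∈ V' k) := by
      intro x hx
      rw [← hH f x hx]
      constructor
      · intro h k hk
        rcases hbool i k with rfl | rfl
        · exact absurd hi' hk
        · exact h
      · intro h
        exact h (!i) (by rw [Bool.not_not]; exact hi)
    have R : ∀ j, f ∉ b' j := by
      intro j hj
      by_cases hj2 : f ∈ b' (!j)
      · -- nothing alive on the right
        obtain ⟨x, hxZ, hx⟩ := Set.exists_of_ssubset (hV (!i))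
        apply hx
        rw [Q x hxZ]
        intro k hk
        rcases hbool j k with rfl | rfl
        · exact absurd hj2 hk
        · rw [Bool.not_not] at hk
          exact absurd hj hk
      · -- only `!j` is alive on the right
        apply hVne (!i) j
        ext x
        constructor
        · intro hx
          exact (Q x ((hV (!i)).1 hx)).1 hx j hj2
        · intro hx
          rw [Q x ((hV' j).1 hx)]
          intro k hk
          rcases hbool j k with rfl | rfl
          · exact hx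
          · rw [Bool.not_not] at hk
            exact absurd hj hk
    refine ⟨R, fun x hx => ?_⟩
    rw [Q x hx]
    exact ⟨fun h j => h j (R _), fun h k _ => h k⟩
  have PX := P U U' a a' hU hU' H hne
  have PY := P U' U a' a hU' hU (fun f x hx => (H f x hx).symm) (fun i j h => hne j i h.symm)
  -- no functional is alive on exactly one child of X
  have NX : ∀ (f : F) (i : Bool), f ∉ a i → f ∈ a (!i) → False := by
    intro f i hi hi'
    obtain ⟨hal, hE⟩ := PX f i hi hi'
    -- a i ⊆ a (!i)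
    have hsub : a i ⊆ a (!i) := by
      intro g hg
      by_contra hg'
      obtain ⟨-, hE2⟩ := PX g (!i) hg' (by rw [Bool.not_not]; exact hg)
      rw [Bool.not_not] at hE2
      have hEq : U i = U (!i) := by
        ext x
        constructor
        · intro hx
          exact (hE x (hUZ i hx)).2 ((hE2 x (hUZ i hx)).1 hx)
        · intro hx
          exact (hE2 x (hUZ _ hx)).2 ((hE x (hUZ _ hx)).1 hx)
      exact hi ((e i (!i) hEq).symm ▸ hi')
    have hU1 := m i (!i) hsub
    by_cases hY : ∃ g j, g ∉ a' j ∧ g ∈ a' (!j)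
    · obtain ⟨g, j, hg, hg'⟩ := hY
      obtain ⟨-, hE3⟩ := PY g j hg hg'
      apply hne i (!j)
      ext x
      constructor
      · intro hx
        rw [hE3 x (hUZ i hx)]
        intro k
        rcases hbool i k with rfl | rfl
        · exact hx
        · exact hU1 hx
      · intro hx
        exact (hE3 x (hUZ' _ hx)).1 hx i
    · have hsame : ∀ j k, a' j ⊆ a' k := by
        intro j k
        rcases hbool j k with rfl | rfl
        · exact subset_rfl
        · intro g hg
          by_contra hg'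
          exact hY ⟨g, !j, hg', by rw [Bool.not_not]; exact hg⟩
      have hUs : ∀ j k, U' j ⊆ U' k := fun j k => m' j k (hsame j k)
      apply hne (!i) true
      ext x
      constructor
      · intro hx
        exact (hE x (hUZ _ hx)).1 hx true
      · intro hx
        rw [hE x (hUZ' _ hx)]
        intro k
        exact hUs true k hx
  have hsX : ∀ j k, a j ⊆ a k := by
    intro j k
    rcases hbool j k with rfl | rfl
    · exact subset_rfl
    · intro g hg
      by_contra hg'
      exact NX g (!j) hg' (by rw [Bool.not_not]; exact hg)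
  have hUX : ∀ j k, U j ⊆ U k := fun j k => m j k (hsX j k)
  have NY : ∀ (f : F) (i : Bool), f ∉ a' i → f ∈ a' (!i) → False := by
    intro f i hi hi'
    obtain ⟨-, hE⟩ := PY f i hi hi'
    apply hne true (!i)
    ext x
    constructor
    · intro hx
      rw [hE x (hUZ _ hx)]
      intro k
      exact hUX true k hx
    · intro hx
      exact (hE x (hUZ' _ hx)).1 hx true
  have hsY : ∀ j k, a' j ⊆ a' k := by
    intro j k
    rcases hbool j k with rfl | rfl
    · exact subset_rfl
    · intro g hg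
      by_contra hg'
      exact NY g (!j) hg' (by rw [Bool.not_not]; exact hg)
  -- all functionals are alive on all or on none
  have k1 : a true ⊆ a' true := by
    intro g hg
    by_contra hg'
    obtain ⟨x, hxZ, hx⟩ := Set.exists_of_ssubset (hU' true)
    apply hx
    refine (H g x hxZ).1 (fun i hi => absurd (hsX true (!i) hg) hi) true ?_
    intro h
    exact hg' (hsY _ _ h)
  have k2 : a' true ⊆ a true := by
    intro g hg
    by_contra hg'
    obtain ⟨x, hxZ, hx⟩ := Set.exists_of_ssubset (hU true)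
    apply hx
    refine (H g x hxZ).2 (fun i hi => absurd (hsY true (!i) hg) hi) true ?_
    intro h
    exact hg' (hsX _ _ h)
  exact hne true true (Set.Subset.antisymm (n _ _ k1) (n' _ _ k2))

end Pool.Agent.Bht.BK.CZ
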