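import Pool.Agent.Bht.CZ.Sig

namespace Pool.Agent.Bht.BK.CZ

open Pool.Agent.H25

/-! ## A1 products -/
section A1
variable {α β : Type} {K : Type*} [Field K]

lemma val_sum {ι : Type*} (L : LT α) (s : Finset ι) (φ : ι → List α → K) :
    L.val (fun w => ∑ i ∈ s, φ i w) = ∑ i ∈ s, L.val (φ i) := by
  classical
  induction s using Finset.induction_on with
  | empty => simpa using val_zero (K := K) L
  | insert i s hi ih =>
    rw [Finset.sum_insert hi, ← ih, ← val_add]
    refine val_congr L (fun w _ => ?_)
    rw [Finset.sum_insert hi]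

lemma pv_congr (Ls : List (LT α)) {φ χ : List α → K} (h : ∀ w, w.Perm (Ls.flatMap LT.leaves) → φ w = χ w) :
    pv Ls φ = pv Ls χ := by
  induction Ls generalizing φ χ with
  | nil => exact h [] (List.Perm.refl _)
  | cons L Ls ih =>
    simp only [pv]
    refine val_congr L (fun w hw => ih (fun u hu => h _ ?_))
    rw [List.flatMap_cons]
    exact hw.append hu

lemma pv_zero (Ls : List (LT α)) : pv Ls (fun _ => (0 : K)) = 0 := by
  induction Ls with
  | nil => rfl
  | cons L Ls ih => simp only [pv, ih, val_zero]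

lemma pv_add (Ls : List (LT α)) (φ χ : List α → K) : pv Ls (fun w => φ w + χ w) = pv Ls φ + pv Ls χ := by
  induction Ls generalizing φ χ with
  | nil => rfl
  | cons L Ls ih => simp only [pv, ih, val_add]

lemma pv_sub (Ls : List (LT α)) (φ χ : List α → K) : pv Ls (fun w => φ w - χ w) = pv Ls φ - pv Ls χ := by
  induction Ls generalizing φ χ with
  | nil => rfl
  | cons L Ls ih => simp only [pv, ih, val_sub]

lemma pv_mul_left (Ls : List (LT α)) (c : K) (φ : List α → K) : pv Ls (fun w => c * φ w) = c * pv Ls φ := by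
  induction Ls generalizing φ with
  | nil => rfl
  | cons L Ls ih => simp only [pv, ih, val_mul_left]

lemma pv_mul_right (Ls : List (LT α)) (c : K) (φ : List α → K) : pv Ls (fun w => φ w * c) = pv Ls φ * c := by
  simp only [mul_comm _ c]
  exact pv_mul_left Ls c φ

lemma pv_sum {ι : Type*} (Ls : List (LT α)) (s : Finset ι) (φ : ι → List α → K) :
    pv Ls (fun w => ∑ i ∈ s, φ i w) = ∑ i ∈ s, pv Ls (φ i) := by
  induction Ls generalizing φ with
  | nil => rfl
  | cons L Ls ih => simp only [pv, ih, val_sum]

lemma pv_append (Ls Ms : List (LT α)) (φ : List α → K) :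
    pv (Ls ++ Ms) φ = pv Ls (fun p => pv Ms (fun q => φ (p ++ q))) := by
  induction Ls generalizing φ with
  | nil => rfl
  | cons L Ls ih => simp only [List.cons_append, pv, ih, List.append_assoc]

lemma val_pv (L : LT α) (Ms : List (LT β)) (φ : List α → List β → K) :
    L.val (fun p => pv Ms (fun q => φ p q)) = pv Ms (fun q => L.val (fun p => φ p q)) := by
  induction Ms generalizing φ with
  | nil => rfl
  | cons M Ms ih =>
    simp only [pv]
    rw [val_val]
    simp only [ih]

lemma pv_pv (Ls : List (LT α)) (Ms : List (LT β)) (φ : List α → List β → K) :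
    pv Ls (fun p => pv Ms (fun q => φ p q)) = pv Ms (fun q => pv Ls (fun p => φ p q)) := by
  induction Ls generalizing φ with
  | nil => rfl
  | cons L Ls ih =>
    simp only [pv]
    rw [← val_pv]
    simp only [ih]

lemma pv_map (f : α → β) (Ls : List (LT α)) (φ : List β → K) :
    pv (Ls.map (LT.map f)) φ = pv Ls (fun w => φ (w.map f)) := by
  induction Ls generalizing φ with
  | nil => rfl
  | cons L Ls ih => simp only [List.map_cons, pv, val_map, ih, List.map_append]

/-- the position of one factor -/
lemma pv_mid (Ls Ms : List (LT α)) (L : LT α) (φ : List α → K) :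
    pv (Ls ++ L :: Ms) φ = L.val (fun w => pv Ls (fun p => pv Ms (fun q => φ (p ++ w ++ q)))) := by
  rw [pv_append]
  simp only [pv]
  rw [val_pv]
  simp only [List.append_assoc]

lemma pv_clade_zero {C L : LT α} {Ls : List (LT α)} (hL : L ∈ Ls) (hC : LT.Cl C L) {φ : List α → K}
    (h : ∀ u v, C.val (fun w => φ (u ++ w ++ v)) = 0) : pv Ls φ = 0 := by
  obtain ⟨s, t, rfl⟩ := List.append_of_mem hL
  rw [pv_mid]
  refine clade_zero hC (fun u v => ?_)
  rw [val_pv]
  have h1 : ∀ p : List α, C.val (fun w => pv t (fun q => φ (p ++ (u ++ w ++ v) ++ q))) = 0 := by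
    intro p
    rw [val_pv]
    have h2 : ∀ q : List α, C.val (fun w => φ (p ++ (u ++ w ++ v) ++ q)) = 0 := by
      intro q
      have := h (p ++ u) (v ++ q)
      simpa only [List.append_assoc] using this
    simp only [h2, pv_zero]
  simp only [h1, pv_zero]

lemma exists_perm_of_pv_ne (Ls : List (LT α)) {φ : List α → K} (h : pv Ls φ ≠ 0) :
    ∃ w, w.Perm (Ls.flatMap LT.leaves) ∧ φ w ≠ 0 := by
  by_contra hcon
  push Not at hcon
  apply h
  rw [pv_congr Ls (χ := fun _ => 0) hcon, pv_zero]
end A1

end Pool.Agent.Bht.BK.CZ
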