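import Pool.Agent.Bht.CZ.A2
import Pool.Agent.Bht.BK.R2
import Pool.Agent.Bht.EQ66.P1

namespace Pool.Agent.Bht.BK.CZ

open Pool.Agent.H25
open Pool.Agent.Bht.BK.EQ66 (cval chains Ev EvX cval_append cval_val cval_mul_left EvX_mono EvX_nil)

variable {K : Type*} [Field K]

/-! ## A3 roots -/

namespace A3

variable {α : Type}

lemma pv_eq (Ls : List (LT α)) (φ : List α → K) : pv Ls φ = cval Ls φ := by
  induction Ls generalizing φ with
  | nil => rfl
  | cons L Ls ih => rw [pv, cval]; simp only [ih]

lemma val_rev (L : LT α) : ∃ e : K, e ≠ 0 ∧ ∀ φ : List α → K, L.val (fun w => φ w.reverse) = e * L.val φ := by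
  induction L with
  | leaf x => exact ⟨1, one_ne_zero, fun φ => by simp [LT.val]⟩
  | node a b iha ihb =>
    obtain ⟨ea, ha, ha'⟩ := iha
    obtain ⟨eb, hb, hb'⟩ := ihb
    refine ⟨-(ea * eb), neg_ne_zero.2 (mul_ne_zero ha hb), fun φ => ?_⟩
    rw [LT.val, LT.val]
    have h1 : a.val (fun p => b.val (fun q => φ (p ++ q).reverse)) =
        ea * eb * b.val (fun q => a.val (fun p => φ (q ++ p))) := by
      have e1 : ∀ p : List α, b.val (fun q => φ (p ++ q).reverse) =
          eb * b.val (fun q => φ (q ++ p.reverse)) := by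
        intro p
        rw [← hb' (fun q => φ (q ++ p.reverse))]
        simp only [List.reverse_append]
      simp only [e1]
      rw [ha' (fun p => eb * b.val (fun q => φ (q ++ p))), val_mul_left, val_val a b (fun p q => φ (q ++ p))]
      ring
    have h2 : b.val (fun q => a.val (fun p => φ (q ++ p).reverse)) =
        ea * eb * a.val (fun p => b.val (fun q => φ (p ++ q))) := by
      have e1 : ∀ q : List α, a.val (fun p => φ (q ++ p).reverse) =
          ea * a.val (fun p => φ (p ++ q.reverse)) := by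
        intro q
        rw [← ha' (fun p => φ (p ++ q.reverse))]
        simp only [List.reverse_append]
      simp only [e1]
      rw [hb' (fun q => ea * a.val (fun p => φ (p ++ q))), val_mul_left, val_val b a (fun q p => φ (p ++ q))]
      ring
    rw [h1, h2]
    ring

lemma pv_rev (Ls : List (LT α)) : ∃ e : K, e ≠ 0 ∧ ∀ φ : List α → K,
    cval Ls.reverse (fun w => φ w.reverse) = e * pv Ls φ := by
  induction Ls with
  | nil => exact ⟨1, one_ne_zero, fun φ => by simp [cval, pv]⟩
  | cons L Ls ih =>
    obtain ⟨e, he, he'⟩ := ih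
    obtain ⟨f, hf, hf'⟩ := val_rev (K := K) L
    refine ⟨f * e, mul_ne_zero hf he, fun φ => ?_⟩
    rw [List.reverse_cons, cval_append]
    have e1 : ∀ p : List α, cval [L] (fun q => φ (p ++ q).reverse) =
        f * L.val (fun q => φ (q ++ p.reverse)) := by
      intro p
      rw [← hf' (fun q => φ (q ++ p.reverse))]
      simp only [cval, List.append_nil, List.reverse_append]
    simp only [e1]
    rw [cval_mul_left, he' (fun p => L.val (fun q => φ (q ++ p))), pv_eq,
      cval_val Ls L (fun p q => φ (q ++ p)), pv]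
    simp only [pv_eq]
    ring

lemma chains_paths (s : BT) : ∀ c : List BT, c ∈ chains s ↔ c.reverse ∈ paths s := by
  induction s with
  | leaf => intro c; simp [chains, paths]
  | node a b iha ihb =>
    intro c
    rw [chains, paths, List.mem_append, List.mem_append]
    constructor
    · rintro (h | h)
      · obtain ⟨c', hc', rfl⟩ := List.mem_map.1 h
        exact Or.inl (List.mem_map.2 ⟨c'.reverse, (iha c').1 hc', by simp⟩)
      · obtain ⟨c', hc', rfl⟩ := List.mem_map.1 h
        exact Or.inr (List.mem_map.2 ⟨c'.reverse, (ihb c').1 hc', by simp⟩)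
    · rintro (h | h)
      · obtain ⟨c', hc', e⟩ := List.mem_map.1 h
        refine Or.inl (List.mem_map.2 ⟨c'.reverse, (iha _).2 (by rwa [List.reverse_reverse]), ?_⟩)
        rw [← List.reverse_reverse c, ← e]
        simp
      · obtain ⟨c', hc', e⟩ := List.mem_map.1 h
        refine Or.inr (List.mem_map.2 ⟨c'.reverse, (ihb _).2 (by rwa [List.reverse_reverse]), ?_⟩)
        rw [← List.reverse_reverse c, ← e]
        simp

/-- products with fixed factors in front -/
lemma pv_front (Hs Ms : List (LT α)) (φ : List α → K) :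
    pv (Hs ++ Ms) φ = pv Ms (fun q => pv Hs (fun p => φ (p ++ q))) := by
  simp only [pv_eq]
  rw [cval_append]
  exact Pool.Agent.Bht.BK.EQ66.cval_cval Hs Ms (fun p q => φ (p ++ q))

end A3

open A3 in
theorem root_le {s t : BT} (h : X0 K s ≤ X0 K t) (hs : List BT) (φ : List ℕ → K)
    (hφ : Ann (PP hs (paths t)) φ) : Ann (PP hs (paths s)) φ := by
  intro l hl Ls hLs
  by_contra hne
  obtain ⟨l', hl', rfl⟩ := List.mem_map.1 hl
  obtain ⟨Hs, Ms, rfl, hHs, hMs⟩ := List.map_eq_append_iff.1 hLs
  rw [pv_front] at hne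
  obtain ⟨e, he, he'⟩ := pv_rev (K := K) Ms
  have h1 : EvX s [] (fun w => (fun q => pv Hs (fun p => φ (p ++ q))) w.reverse) := by
    rw [EvX_nil]
    refine ⟨l'.reverse, (chains_paths s _).2 (by rwa [List.reverse_reverse]), Ms.reverse, ?_, ?_⟩
    · rw [List.map_reverse, hMs]
    · rw [he' (fun q => pv Hs (fun p => φ (p ++ q)))]
      exact mul_ne_zero he hne
  have h2 := EvX_mono h _ h1
  rw [EvX_nil] at h2
  obtain ⟨c, hc, Gs, hGs, hv⟩ := h2
  obtain ⟨f, hf, hf'⟩ := pv_rev (K := K) Gs.reverse
  rw [List.reverse_reverse] at hf'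
  rw [hf' (fun q => pv Hs (fun p => φ (p ++ q))), ← pv_front] at hv
  apply right_ne_zero_of_mul hv
  refine hφ (hs ++ c.reverse) (List.mem_map.2 ⟨c.reverse, (chains_paths t c).1 hc, rfl⟩) _ ?_
  rw [List.map_append, hHs, List.map_reverse, hGs]

end Pool.Agent.Bht.BK.CZ
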