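import Pool.Agent.Bht.CZ.A2
import Pool.Agent.Bht.CZ.A4
import Pool.Agent.Bht.CZ.A5

namespace Pool.Agent.Bht.BK.CZ

open Pool.Agent.H25

namespace P3

open Classical

variable {K : Type*} [Field K]

/-- the class of a labelled tree -/
def cl (L : LT (ℕ × ℕ)) : ℕ := (L.leaves.head?).elim 0 Prod.fst

lemma leaves_ne {α : Type} (L : LT α) : L.leaves ≠ [] := by
  induction L with
  | leaf x => simp [LT.leaves]
  | node a b iha ihb => simp [LT.leaves, iha]

lemma cl_of {i : ℕ} {L : LT (ℕ × ℕ)} (h : InC i L) : cl L = i := by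
  unfold cl
  unfold InC at h
  cases hL : L.leaves with
  | nil => exact absurd hL (leaves_ne L)
  | cons x t =>
    simp only [List.head?_cons, Option.elim_some]
    exact h x (by rw [hL]; simp)

lemma lv_pos (h : BT) : 1 ≤ h.lv := by
  induction h with
  | leaf => simp [BT.lv]
  | node a b iha ihb => simp only [BT.lv]; omega

/-- the dead shapes -/
noncomputable def dead (K : Type*) [Field K] (J : BT → Prop) (hs : List BT) : List BT :=
  hs.filter (fun h => ¬ NI K J h)

/-- the functionals of the classes -/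
noncomputable def ph (ρ : List ℕ → K) (gf : BT → List ℕ → K) (D : List BT) (i : ℕ) : List ℕ → K :=
  if i = 0 then ρ else gf (D.getD (i - 1) BT.leaf)

lemma sum_getD {β : Type} (F : β → ℕ) (a : β) (D : List β) :
    ∑ i ∈ Finset.Icc 1 D.length, F (D.getD (i - 1) a) = (D.map F).sum := by
  have h1 : ∑ i ∈ Finset.Icc 1 D.length, F (D.getD (i - 1) a) = ∑ i ∈ Finset.range D.length, F (D.getD i a) := by
    symm
    refine Finset.sum_bij' (fun i _ => i + 1) (fun i _ => i - 1) ?_ ?_ ?_ ?_ ?_
    · intro i hi; rw [Finset.mem_range] at hi; rw [Finset.mem_Icc]; omega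
    · intro i hi; rw [Finset.mem_Icc] at hi; rw [Finset.mem_range]; omega
    · intro i hi; omega
    · intro i hi; rw [Finset.mem_Icc] at hi; omega
    · intro i hi; rfl
  rw [h1]
  clear h1
  induction D with
  | nil => simp
  | cons x D ih =>
    rw [List.length_cons, Finset.sum_range_succ']
    simp only [List.getD_cons_succ, List.getD_cons_zero, List.map_cons, List.sum_cons]
    rw [ih, add_comm]

lemma sum_ind {β : Type} (P : β → Prop) (D : List β) :
    (D.map (fun h => if P h then 1 else 0)).sum = D.countP P := by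
  induction D with
  | nil => simp
  | cons x D ih =>
    rw [List.map_cons, List.sum_cons, List.countP_cons, ih, add_comm]
    simp

lemma count_part {β : Type} (Q : β → Bool) (c : β → ℕ) (k : ℕ) (Ls : List β) (hc : ∀ L ∈ Ls, c L < k) :
    Ls.countP Q = ∑ i ∈ Finset.range k, (Ls.filter (fun L => c L = i)).countP Q := by
  induction Ls with
  | nil => simp
  | cons L Ls ih =>
    have h1 := ih (fun M hM => hc M (List.mem_cons_of_mem _ hM))
    rw [List.countP_cons, h1]
    have h2 : ∀ i ∈ Finset.range k, ((L :: Ls).filter (fun L => c L = i)).countP Q =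
        (Ls.filter (fun L => c L = i)).countP Q + (if c L = i then (if Q L then 1 else 0) else 0) := by
      intro i _
      rw [List.filter_cons]
      by_cases h : c L = i
      · simp [h, List.countP_cons]
      · simp [h]
    rw [Finset.sum_congr rfl h2, Finset.sum_add_distrib, Finset.sum_ite_eq]
    rw [if_pos (Finset.mem_range.mpr (hc L (List.mem_cons_self)))]

lemma filter_shape (p : BT → Bool) {α : Type} (Ls : List (LT α)) :
    (Ls.map LT.shape).filter p = (Ls.filter (fun L => p L.shape)).map LT.shape := by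
  rw [List.filter_map]
  rfl

lemma length_flat {α : Type} (Ls : List (LT α)) :
    (Ls.flatMap LT.leaves).length = (Ls.map (fun L => L.shape.lv)).sum := by
  rw [List.length_flatMap]
  congr 1
  refine List.map_congr_left (fun L _ => ?_)
  exact length_leaves L

lemma core1 {J1 : BT → Prop} {ρ : List ℕ → K} (hρ : KI J1 ρ) (gf : BT → List ℕ → K) (D : List BT)
    (hD : ∀ h ∈ D, Sp h.lv (gf h)) (Ls : List (LT (ℕ × ℕ)))
    (hne : pv Ls (shuf (D.length + 1) (ph ρ gf D)) ≠ 0)
    (hsum : (D.map (fun h => h.lv ^ 2)).sum ≤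
      ((dead K J1 (Ls.map LT.shape)).map (fun h => h.lv ^ 2)).sum) :
    (∃ Ms : List (LT ℕ), Ms.map LT.shape = fil K J1 (Ls.map LT.shape) ∧ pv Ms ρ ≠ 0) ∧
      (D.map (fun h => h.lv ^ 2)).sum = ((dead K J1 (Ls.map LT.shape)).map (fun h => h.lv ^ 2)).sum ∧
      ∀ P : BT → Prop, (∀ h ∈ D, ∀ L : LT ℕ, L.shape.lv = h.lv → P L.shape → L.val (gf h) ≠ 0 → P h) →
        (dead K J1 (Ls.map LT.shape)).countP P ≤ D.countP P := by
  have hp := pv_shuf_pure _ _ Ls hne
  rw [pv_shuf_eq _ _ Ls hp, Finset.prod_ne_zero_iff] at hne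
  have hfac : ∀ i < D.length + 1,
      pv ((Ls.filter (fun L => InC i L)).map (LT.map Prod.snd)) (ph ρ gf D i) ≠ 0 :=
    fun i hi => hne i (Finset.mem_range.mpr hi)
  clear hne
  have hfil : ∀ i, Ls.filter (fun L => InC i L) = Ls.filter (fun L => cl L = i) := by
    intro i
    refine List.filter_congr (fun L hL => ?_)
    obtain ⟨j, _, hj⟩ := hp L hL
    by_cases h : cl L = i
    · have h1 : InC i L := by rw [← h, cl_of hj]; exact hj
      simp [h, h1]
    · have h1 : ¬ InC i L := fun h2 => h (cl_of h2)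
      simp [h, h1]
  have hgd : ∀ i, 1 ≤ i → i ≤ D.length → D.getD (i - 1) BT.leaf ∈ D := by
    intro i h1 h2
    have h3 : i - 1 < D.length := by omega
    rw [List.getD_eq_getElem _ _ h3]
    exact List.getElem_mem h3
  have hph : ∀ i, 1 ≤ i → ph ρ gf D i = gf (D.getD (i - 1) BT.leaf) := by
    intro i h1
    unfold ph
    rw [if_neg (by omega)]
  have hbd : ((Ls.filter (fun L => ¬ NI K J1 L.shape)).map (fun L => L.shape.lv ^ 2)).sum =
      ((dead K J1 (Ls.map LT.shape)).map (fun h => h.lv ^ 2)).sum := by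
    unfold dead
    rw [filter_shape, List.map_map]
    rfl
  have hbad : ∀ L ∈ Ls, ¬ NI K J1 L.shape → 1 ≤ cl L := by
    intro L hL hn
    by_contra hcon
    have h0 : cl L = 0 := by omega
    have h1 := hfac 0 (by omega)
    apply h1
    have h2 : ph ρ gf D 0 = ρ := by unfold ph; rw [if_pos rfl]
    rw [h2]
    have h3 : L.map Prod.snd ∈ (Ls.filter (fun L => InC 0 L)).map (LT.map Prod.snd) := by
      rw [hfil]
      exact List.mem_map_of_mem (List.mem_filter.mpr ⟨hL, by simp [h0]⟩)
    exact pv_clade_zero h3 (LT.Cl.refl _) (not_NI hn hρ (shape_map _ _))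
  have sq := sq_core Ls (fun L => L.shape.lv) cl (fun L => ¬ NI K J1 L.shape) D.length
    (fun i => (D.getD (i - 1) BT.leaf).lv) (fun L _ => lv_pos _) (by
      intro i h1 h2
      have h3 := hfac i (by omega)
      rw [hph i h1] at h3
      obtain ⟨w, hw1, hw2⟩ := exists_perm_of_pv_ne _ h3
      have h4 := hD _ (hgd i h1 h2) w hw2
      have h5 := (hw1.symm.trans h4).length_eq
      rw [length_flat, List.length_range, hfil, List.map_map] at h5
      rw [← h5]
      congr 1
      refine List.map_congr_left (fun L _ => ?_)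
      simp only [Function.comp, shape_map]) (fun i _ _ => lv_pos _) (by
      intro L hL
      obtain ⟨j, h1, h2⟩ := hp L hL
      rw [cl_of h2]
      omega) hbad (by
      rw [hbd, sum_getD (fun h => h.lv ^ 2) BT.leaf D]
      exact hsum)
  obtain ⟨sq1, sq2⟩ := sq
  have h0 : ∀ L ∈ Ls, cl L ≤ D.length := by
    intro L hL
    obtain ⟨j, h1, h2⟩ := hp L hL
    rw [cl_of h2]
    omega
  have hiff : ∀ L ∈ Ls, (cl L = 0 ↔ NI K J1 L.shape) := by
    intro L hL
    constructor
    · intro h1
      by_contra h2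
      have := hbad L hL h2
      omega
    · intro h1
      by_contra h2
      obtain ⟨L0, h3, h4, _⟩ := sq1 (cl L) (by omega) (h0 L hL)
      have h5 : L ∈ Ls.filter (fun M => cl M = cl L) := List.mem_filter.mpr ⟨hL, by simp⟩
      rw [h3, List.mem_singleton] at h5
      rw [← h5] at h4
      exact h4 h1
  refine ⟨⟨(Ls.filter (fun L => InC 0 L)).map (LT.map Prod.snd), ?_, ?_⟩, ?_, ?_⟩
  · rw [hfil, List.map_map]
    unfold fil
    rw [filter_shape]
    have h1 : Ls.filter (fun L => cl L = 0) = Ls.filter (fun L => NI K J1 L.shape) := by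
      refine List.filter_congr (fun L hL => ?_)
      have h2 := hiff L hL
      by_cases h : cl L = 0
      · simp [h, h2.mp h]
      · have h3 : ¬ NI K J1 L.shape := fun h4 => h (h2.mpr h4)
        simp [h, h3]
    rw [h1]
    refine List.map_congr_left (fun L _ => ?_)
    simp only [Function.comp, shape_map]
  · have h1 := hfac 0 (by omega)
    have h2 : ph ρ gf D 0 = ρ := by unfold ph; rw [if_pos rfl]
    rw [h2] at h1
    exact h1
  · rw [← hbd, ← sq2, sum_getD (fun h => h.lv ^ 2) BT.leaf D]
  · intro P hP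
    have h1 : (dead K J1 (Ls.map LT.shape)).countP P = Ls.countP (fun L => ¬ NI K J1 L.shape ∧ P L.shape) := by
      unfold dead
      rw [filter_shape, List.countP_map, List.countP_filter]
      refine List.countP_congr (fun L _ => ?_)
      simp [and_comm]
    rw [h1, count_part _ cl (D.length + 1) Ls (fun L hL => Nat.lt_succ_of_le (h0 L hL)),
      ← sum_ind P D, ← sum_getD (fun h => if P h then 1 else 0) BT.leaf D]
    rw [Finset.sum_range_succ']
    have h2 : (Ls.filter (fun L => cl L = 0)).countP (fun L => ¬ NI K J1 L.shape ∧ P L.shape) = 0 := by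
      rw [List.countP_eq_zero]
      intro L hL
      rw [List.mem_filter] at hL
      have h3 := (hiff L hL.1).mp (by simpa using hL.2)
      simp [h3]
    rw [h2, add_zero]
    have h3 : ∑ i ∈ Finset.Icc 1 D.length, (if P (D.getD (i - 1) BT.leaf) then 1 else 0) =
        ∑ i ∈ Finset.range D.length, (if P (D.getD i BT.leaf) then 1 else 0) := by
      symm
      refine Finset.sum_bij' (fun i _ => i + 1) (fun i _ => i - 1) ?_ ?_ ?_ ?_ ?_
      · intro i hi; rw [Finset.mem_range] at hi; rw [Finset.mem_Icc]; omega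
      · intro i hi; rw [Finset.mem_Icc] at hi; rw [Finset.mem_range]; omega
      · intro i hi; omega
      · intro i hi; rw [Finset.mem_Icc] at hi; omega
      · intro i hi; rfl
    rw [h3]
    refine Finset.sum_le_sum (fun i hi => ?_)
    rw [Finset.mem_range] at hi
    obtain ⟨L0, h4, h5, h6⟩ := sq1 (i + 1) (by omega) (by omega)
    rw [h4]
    simp only [Nat.add_sub_cancel] at h6
    by_cases h7 : P L0.shape
    · have h8 : P (D.getD i BT.leaf) := by
        have h9 := hfac (i + 1) (by omega)
        rw [hph (i + 1) (by omega), hfil, h4] at h9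
        simp only [Nat.add_sub_cancel, List.map_cons, List.map_nil, pv, List.append_nil] at h9
        refine hP _ (by have := hgd (i + 1) (by omega) (by omega); simpa using this) (L0.map Prod.snd) ?_ ?_ h9
        · rw [shape_map]; exact h6
        · rw [shape_map]; exact h7
      rw [if_pos h8]
      exact (List.countP_le_length).trans (by simp)
    · simp [h7]

lemma inC_map (i : ℕ) (M : LT ℕ) : InC i (M.map (fun x => (i, x))) := by
  intro x hx
  rw [leaves_map, List.mem_map] at hx
  obtain ⟨y, _, rfl⟩ := hx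
  rfl

lemma map_snd_map (i : ℕ) (M : LT ℕ) : (M.map (fun x => (i, x))).map Prod.snd = M := by
  induction M with
  | leaf x => rfl
  | node a b iha ihb => simp only [LT.map, iha, ihb]

lemma not_inC {i j : ℕ} (hij : i ≠ j) {L : LT (ℕ × ℕ)} (h : InC i L) : ¬ InC j L := fun h' =>
  hij ((cl_of h).symm.trans (cl_of h'))

lemma merge {J1 : BT → Prop} (gf : BT → List ℕ → K) :
    ∀ (T : List BT) (Ms : List (LT ℕ)) (i : ℕ), 1 ≤ i →
    (∀ h ∈ T, ¬ NI K J1 h → ∃ L : LT ℕ, L.shape = h ∧ L.val (gf h) ≠ 0) →
    Ms.map LT.shape = fil K J1 T →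
    ∃ Ls : List (LT (ℕ × ℕ)), Ls.map LT.shape = T ∧
      (∀ L ∈ Ls, ∃ j, InC j L ∧ (j = 0 ∨ (i ≤ j ∧ j < i + (dead K J1 T).length))) ∧
      (Ls.filter (fun L => InC 0 L)).map (LT.map Prod.snd) = Ms ∧
      ∀ j < (dead K J1 T).length, ∃ L : LT ℕ,
        (Ls.filter (fun L => InC (i + j) L)).map (LT.map Prod.snd) = [L] ∧
          L.val (gf ((dead K J1 T).getD j BT.leaf)) ≠ 0 := by
  intro T
  induction T with
  | nil =>
    intro Ms i _ _ hMs
    have h0 : Ms = [] := by
      unfold fil at hMs
      simpa using hMs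
    subst h0
    refine ⟨[], rfl, by simp, by simp, ?_⟩
    intro j hj
    simp [dead] at hj
  | cons h T ih =>
    intro Ms i hi hT hMs
    by_cases hn : NI K J1 h
    · have hf : fil K J1 (h :: T) = h :: fil K J1 T := by
        unfold fil
        rw [List.filter_cons_of_pos (by simpa using hn)]
      have hd : dead K J1 (h :: T) = dead K J1 T := by
        unfold dead
        rw [List.filter_cons_of_neg (by simpa using hn)]
      rw [hf] at hMs
      cases Ms with
      | nil => simp at hMs
      | cons M Ms =>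
        rw [List.map_cons, List.cons.injEq] at hMs
        obtain ⟨Ls, h1, h2, h3, h4⟩ := ih Ms i hi (fun x hx => hT x (List.mem_cons_of_mem _ hx)) hMs.2
        have hc : InC 0 (M.map (fun x => ((0 : ℕ), x))) := inC_map 0 M
        refine ⟨M.map (fun x => ((0 : ℕ), x)) :: Ls, ?_, ?_, ?_, ?_⟩
        · rw [List.map_cons, h1, shape_map, hMs.1]
        · intro L hL
          rw [List.mem_cons] at hL
          rcases hL with rfl | hL
          · exact ⟨0, hc, Or.inl rfl⟩
          · rw [hd]; exact h2 L hL
        · rw [List.filter_cons_of_pos (by simpa using hc), List.map_cons, h3, map_snd_map]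
        · intro j hj
          rw [hd] at hj ⊢
          obtain ⟨L, h5, h6⟩ := h4 j hj
          refine ⟨L, ?_, h6⟩
          rw [List.filter_cons_of_neg (by simpa using not_inC (by omega) hc)]
          exact h5
    · have hf : fil K J1 (h :: T) = fil K J1 T := by
        unfold fil
        rw [List.filter_cons_of_neg (by simpa using hn)]
      have hd : dead K J1 (h :: T) = h :: dead K J1 T := by
        unfold dead
        rw [List.filter_cons_of_pos (by simpa using hn)]
      rw [hf] at hMs
      obtain ⟨M, hM1, hM2⟩ := hT h (List.mem_cons_self) hn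
      obtain ⟨Ls, h1, h2, h3, h4⟩ := ih Ms (i + 1) (by omega) (fun x hx => hT x (List.mem_cons_of_mem _ hx)) hMs
      have hc : InC i (M.map (fun x => (i, x))) := inC_map i M
      refine ⟨M.map (fun x => (i, x)) :: Ls, ?_, ?_, ?_, ?_⟩
      · rw [List.map_cons, h1, shape_map, hM1]
      · intro L hL
        rw [List.mem_cons] at hL
        rw [hd, List.length_cons]
        rcases hL with rfl | hL
        · exact ⟨i, hc, Or.inr ⟨le_refl _, by omega⟩⟩
        · obtain ⟨j, h5, h6⟩ := h2 L hL
          refine ⟨j, h5, ?_⟩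
          omega
      · rw [List.filter_cons_of_neg (by simpa using not_inC (by omega) hc)]
        exact h3
      · intro j hj
        rw [hd, List.length_cons] at hj
        rw [hd]
        cases j with
        | zero =>
          refine ⟨M, ?_, hM2⟩
          rw [Nat.add_zero, List.filter_cons_of_pos (by simpa using hc)]
          have h5 : Ls.filter (fun L => InC i L) = [] := by
            rw [List.filter_eq_nil_iff]
            intro L hL
            obtain ⟨j, h6, h7⟩ := h2 L hL
            simpa using not_inC (by omega) h6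
          rw [h5, List.map_cons, List.map_nil, map_snd_map]
        | succ j =>
          obtain ⟨L, h5, h6⟩ := h4 j (by omega)
          refine ⟨L, ?_, ?_⟩
          · rw [List.filter_cons_of_neg (by simpa using not_inC (by omega) hc)]
            have h7 : i + (j + 1) = i + 1 + j := by omega
            rw [h7]
            exact h5
          · rw [List.getD_cons_succ]
            exact h6

lemma core2 {J1 : BT → Prop} (ρ : List ℕ → K) (gf : BT → List ℕ → K) (T : List BT)
    (hT : ∀ h ∈ T, ¬ NI K J1 h → ∃ L : LT ℕ, L.shape = h ∧ L.val (gf h) ≠ 0)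
    (hA : Ann [T] (shuf ((dead K J1 T).length + 1) (ph ρ gf (dead K J1 T)))) :
    Ann [fil K J1 T] ρ := by
  intro l hl Ms hMs
  rw [List.mem_singleton] at hl
  subst hl
  obtain ⟨Ls, h1, h2, h3, h4⟩ := merge gf T Ms 1 (le_refl _) hT hMs
  have h5 := hA T (List.mem_singleton.mpr rfl) Ls h1
  rw [pv_shuf_eq] at h5
  · rw [Finset.prod_eq_zero_iff] at h5
    obtain ⟨i, h6, h7⟩ := h5
    rw [Finset.mem_range] at h6
    cases i with
    | zero =>
      rw [h3] at h7
      have h8 : ph ρ gf (dead K J1 T) 0 = ρ := by unfold ph; rw [if_pos rfl]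
      rw [h8] at h7
      exact h7
    | succ j =>
      obtain ⟨L, h8, h9⟩ := h4 j (by omega)
      have h10 : j + 1 = 1 + j := by omega
      rw [h10, h8] at h7
      have h11 : ph ρ gf (dead K J1 T) (1 + j) = gf ((dead K J1 T).getD j BT.leaf) := by
        unfold ph
        rw [if_neg (by omega)]
        congr 2
        omega
      rw [h11] at h7
      simp only [pv, List.append_nil] at h7
      exact absurd h7 h9
  · intro L hL
    obtain ⟨j, h6, h7⟩ := h2 L hL
    exact ⟨j, by omega, h6⟩

lemma dead_append (J1 : BT → Prop) (hs l : List BT) : dead K J1 (hs ++ l) = dead K J1 hs ++ dead K J1 l := by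
  unfold dead
  rw [List.filter_append]

lemma dead_cons {J1 : BT → Prop} {Y : BT} (hY : ¬ NI K J1 Y) (l : List BT) :
    dead K J1 (Y :: l) = Y :: dead K J1 l := by
  unfold dead
  rw [List.filter_cons_of_pos (by simpa using hY)]

lemma fil_append (J1 : BT → Prop) (hs l : List BT) : fil K J1 (hs ++ l) = fil K J1 hs ++ fil K J1 l := by
  unfold fil
  rw [List.filter_append]

lemma fil_cons {J1 : BT → Prop} {Y : BT} (hY : ¬ NI K J1 Y) (l : List BT) :
    fil K J1 (Y :: l) = fil K J1 l := by
  unfold fil
  rw [List.filter_cons_of_neg (by simpa using hY)]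

lemma fil_self {J1 : BT → Prop} {l : List BT} (h : ∀ x ∈ l, NI K J1 x) : fil K J1 l = l := by
  unfold fil
  rw [List.filter_eq_self]
  intro x hx
  simpa using h x hx

lemma dead_nil {J1 : BT → Prop} {l : List BT} (h : ∀ x ∈ l, NI K J1 x) : dead K J1 l = [] := by
  unfold dead
  rw [List.filter_eq_nil_iff]
  intro x hx
  simpa using h x hx

lemma alive_of_dead {J1 : BT → Prop} {l : List BT} (h : dead K J1 l = []) : ∀ x ∈ l, NI K J1 x := by
  intro x hx
  by_contra hn
  have h1 : x ∈ dead K J1 l := by
    unfold dead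
    exact List.mem_filter.mpr ⟨hx, by simpa using hn⟩
  rw [h] at h1
  simp at h1

lemma sum_sq_zero {D : List BT} (h : (D.map (fun h => h.lv ^ 2)).sum = 0) : D = [] := by
  cases D with
  | nil => rfl
  | cons x D =>
    rw [List.map_cons, List.sum_cons] at h
    have h1 := lv_pos x
    have h2 : 0 < x.lv ^ 2 := by positivity
    omega

/-- the functional of a dead shape -/
noncomputable def gq (J : BT → Prop) (q : ℕ) (f : List ℕ → K) (h : BT) : List ℕ → K :=
  if h.lv = q ∧ ¬ kl f h then f else if hn : NI K J h then (NI_normal hn).choose else fun _ => 0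

lemma KI_of_Sp {J : BT → Prop} {q : ℕ} (hq : ∀ U, J U → q < U.lv) {f : List ℕ → K} (hf : Sp q f) :
    KI J f := by
  intro U hU u v
  rw [val_congr U (χ := fun _ => 0) ?_, val_zero]
  intro w hw
  by_contra h
  have h2 := (hf _ h).length_eq
  have h3 := hw.length_eq
  have h4 := hq _ hU
  rw [length_leaves] at h3
  simp only [List.length_append, List.length_range] at h2
  omega

lemma gq_KI {J : BT → Prop} {q : ℕ} (hq : ∀ U, J U → q < U.lv) {f : List ℕ → K} (hf : Sp q f) (h : BT) :
    KI J (gq J q f h) := by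
  unfold gq
  split_ifs with h1 h2
  · exact KI_of_Sp hq hf
  · exact (NI_normal h2).choose_spec.1
  · intro U _ u v
    exact val_zero U

lemma gq_eq {J : BT → Prop} {q : ℕ} {f : List ℕ → K} {h : BT} (h1 : h.lv = q) (h2 : ¬ kl f h) :
    gq J q f h = f := by
  unfold gq
  rw [if_pos ⟨h1, h2⟩]

lemma gq_Sp {J : BT → Prop} {q : ℕ} {f : List ℕ → K} (hf : Sp q f) {h : BT}
    (hn : NI K J h ∨ (h.lv = q ∧ ¬ kl f h)) : Sp h.lv (gq J q f h) := by
  unfold gq
  split_ifs with h1 h2
  · rw [h1.1]; exact hf
  · exact (NI_normal h2).choose_spec.2.1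
  · exact absurd hn (not_or.mpr ⟨h2, h1⟩)

lemma gq_L {J : BT → Prop} {q : ℕ} {f : List ℕ → K} {h : BT}
    (hn : NI K J h ∨ (h.lv = q ∧ ¬ kl f h)) : ∃ L : LT ℕ, L.shape = h ∧ L.val (gq J q f h) ≠ 0 := by
  unfold gq
  split_ifs with h1 h2
  · have h3 := h1.2
    unfold kl at h3
    push Not at h3
    exact h3
  · obtain ⟨L, h3, _, h4⟩ := (NI_normal h2).choose_spec.2.2
    exact ⟨L, h3, h4⟩
  · exact absurd hn (not_or.mpr ⟨h2, h1⟩)

lemma half {J J1 : BT → Prop} (hJ : ∀ U, J U → J1 U) (q : ℕ) (hq : ∀ U, J U → q < U.lv)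
    (hs : List BT) (hhs : ∀ h ∈ hs, NI K J h) (A' B' : BT)
    (hA' : A'.lv = q) (hB' : B'.lv = q) (jA' : J1 A') (jB' : J1 B') (f : List ℕ → K) (hf : Sp q f)
    (S : List (List BT)) (hU : UA K J (PP hs (paths (BT.node A' B'))) ⊆ UA K J S)
    {ρ : List ℕ → K} (hρ : ρ ∈ UA K J1 (SF f (fil K J1 hs) A' B')) (Y : BT) (hY : Y.lv = q) (jY : J1 Y)
    (kY : ¬ kl f Y) (l : List BT) (hl : hs ++ Y :: l ∈ S) : Ann [fil K J1 hs ++ l] ρ := by
  by_cases hd : ∃ x ∈ l, ¬ NI K J1 x
  · obtain ⟨x, hx, hn⟩ := hd
    exact Ann_of_not_NI hρ.1 (List.mem_append.mpr (Or.inr hx)) hn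
  · push Not at hd
    have hnY : ¬ NI K J1 Y := not_NI_of jY
    have hdT : dead K J1 (hs ++ Y :: l) = dead K J1 hs ++ [Y] := by
      rw [dead_append, dead_cons hnY, dead_nil hd]
    have hfT : fil K J1 (hs ++ Y :: l) = fil K J1 hs ++ l := by
      rw [fil_append, fil_cons hnY, fil_self hd]
    have hmem : ∀ h ∈ dead K J1 hs ++ [Y], NI K J h ∨ (h.lv = q ∧ ¬ kl f h) := by
      intro h hh
      rw [List.mem_append, List.mem_singleton] at hh
      rcases hh with hh | rfl
      · left
        unfold dead at hh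
        exact hhs h (List.mem_filter.mp hh).1
      · exact Or.inr ⟨hY, kY⟩
    have hK : KI J (shuf ((dead K J1 hs ++ [Y]).length + 1) (ph ρ (gq J q f) (dead K J1 hs ++ [Y]))) := by
      refine KI_shuf _ _ (fun i _ => ?_)
      unfold ph
      split_ifs with h1
      · exact fun U hU' u v => hρ.1 U (hJ _ hU') u v
      · exact gq_KI hq hf _
    have hAn : Ann (PP hs (paths (BT.node A' B')))
        (shuf ((dead K J1 hs ++ [Y]).length + 1) (ph ρ (gq J q f) (dead K J1 hs ++ [Y]))) := by
      intro t ht Ls hLs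
      by_contra hne
      obtain ⟨X, l', rfl, hX⟩ : ∃ X l', t = hs ++ X :: l' ∧
          ((X = B' ∧ l' ∈ paths A') ∨ (X = A' ∧ l' ∈ paths B')) := by
        unfold PP at ht
        rw [paths, List.mem_map] at ht
        obtain ⟨m, hm, rfl⟩ := ht
        rw [List.mem_append, List.mem_map, List.mem_map] at hm
        rcases hm with ⟨m', hm', rfl⟩ | ⟨m', hm', rfl⟩
        · exact ⟨B', m', rfl, Or.inl ⟨rfl, hm'⟩⟩
        · exact ⟨A', m', rfl, Or.inr ⟨rfl, hm'⟩⟩
      have hXq : X.lv = q := by rcases hX with ⟨rfl, _⟩ | ⟨rfl, _⟩ <;> assumption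
      have hXn : ¬ NI K J1 X := by
        rcases hX with ⟨rfl, _⟩ | ⟨rfl, _⟩
        · exact not_NI_of jB'
        · exact not_NI_of jA'
      have hdX : dead K J1 (hs ++ X :: l') = dead K J1 hs ++ X :: dead K J1 l' := by
        rw [dead_append, dead_cons hXn]
      have hsum : ((dead K J1 hs ++ [Y]).map (fun h => h.lv ^ 2)).sum ≤
          ((dead K J1 (Ls.map LT.shape)).map (fun h => h.lv ^ 2)).sum := by
        rw [hLs, hdX]
        simp only [List.map_append, List.sum_append, List.map_cons, List.sum_cons, List.map_nil,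
          List.sum_nil, hXq, hY]
        omega
      obtain ⟨⟨Ms, hM1, hM2⟩, h3, h4⟩ := core1 hρ.1 (gq J q f) (dead K J1 hs ++ [Y])
        (fun h hh => gq_Sp hf (hmem h hh)) Ls hne hsum
      rw [hLs, hdX] at h3
      simp only [List.map_append, List.sum_append, List.map_cons, List.sum_cons, List.map_nil,
          List.sum_nil, hXq, hY] at h3
      have h5 : dead K J1 l' = [] := sum_sq_zero (by omega)
      have h6 := h4 (fun h => h.lv = q ∧ kl f h) (by
        intro h hh L h7 h8 h9
        refine ⟨by rw [← h7]; exact h8.1, ?_⟩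
        by_contra h10
        rw [gq_eq (by rw [← h7]; exact h8.1) h10] at h9
        exact h9 (h8.2 L rfl))
      rw [hLs, hdX, h5, List.countP_append, List.countP_append, List.countP_singleton,
        List.countP_singleton] at h6
      have h7 : ¬ kl f X := by
        intro h8
        simp [h8, hXq, kY] at h6
      apply hM2
      refine hρ.2 (fil K J1 hs ++ l') ?_ Ms ?_
      · unfold SF
        rw [List.mem_append]
        rcases hX with ⟨rfl, h8⟩ | ⟨rfl, h8⟩
        · left
          rw [if_neg h7]
          exact List.mem_map_of_mem h8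
        · right
          rw [if_neg h7]
          exact List.mem_map_of_mem h8
      · rw [hM1, hLs, fil_append, fil_cons hXn, fil_self (alive_of_dead h5)]
    have hS := UA_transfer hU hK hAn
    have h1 := core2 ρ (gq J q f) (hs ++ Y :: l) (fun h hh hn => gq_L (hmem h (by
      rw [← hdT]
      unfold dead
      exact List.mem_filter.mpr ⟨hh, by simpa using hn⟩))) (by
      rw [hdT]
      intro t ht
      rw [List.mem_singleton] at ht
      subst ht
      exact hS _ hl)
    rw [hfT] at h1
    exact h1

end P3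

variable {K : Type*} [Field K]

/-! ## A7 penalty lemma, one extra block -/
theorem pen3 {J J1 : BT → Prop} (hJ : ∀ U, J U → J1 U) (q : ℕ) (hq : ∀ U, J U → q < U.lv)
    (hs : List BT) (hhs : ∀ h ∈ hs, NI K J h) (A B A' B' : BT)
    (hA : A.lv = q) (hB : B.lv = q) (hA' : A'.lv = q) (hB' : B'.lv = q)
    (jA : J1 A) (jB : J1 B) (jA' : J1 A') (jB' : J1 B') (f : List ℕ → K) (hf : Sp q f)
    (hU : UA K J (PP hs (paths (BT.node A' B'))) ⊆ UA K J (PP hs (paths (BT.node A B)))) :
    UA K J1 (SF f (fil K J1 hs) A' B') ⊆ UA K J1 (SF f (fil K J1 hs) A B) := by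
  intro ρ hρ
  refine ⟨hρ.1, ?_⟩
  unfold SF
  rw [Ann_append]
  constructor
  · intro t ht
    by_cases hk : kl f B
    · rw [if_pos hk] at ht
      simp at ht
    · rw [if_neg hk] at ht
      unfold PP at ht
      rw [List.mem_map] at ht
      obtain ⟨l, hl, rfl⟩ := ht
      have h1 := P3.half hJ q hq hs hhs A' B' hA' hB' jA' jB' f hf _ hU hρ B hB jB hk l (by
        unfold PP
        rw [paths]
        exact List.mem_map_of_mem (List.mem_append.mpr (Or.inl (List.mem_map_of_mem hl))))
      exact h1 _ (List.mem_singleton.mpr rfl)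
  · intro t ht
    by_cases hk : kl f A
    · rw [if_pos hk] at ht
      simp at ht
    · rw [if_neg hk] at ht
      unfold PP at ht
      rw [List.mem_map] at ht
      obtain ⟨l, hl, rfl⟩ := ht
      have h1 := P3.half hJ q hq hs hhs A' B' hA' hB' jA' jB' f hf _ hU hρ A hA jA hk l (by
        unfold PP
        rw [paths]
        exact List.mem_map_of_mem (List.mem_append.mpr (Or.inr (List.mem_map_of_mem hl))))
      exact h1 _ (List.mem_singleton.mpr rfl)

end Pool.Agent.Bht.BK.CZ
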