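import Pool.Agent.Bht.BK.R1

/-! Products of labelled Lie monomials, ideals, levels and the leg test: definitions. -/

namespace Pool.Agent.Bht.BK.CZ

open Pool.Agent.H25

section
variable {α : Type} {K : Type*} [Field K]

/-- the value of a function of words on a product of labelled trees -/
def pv : List (LT α) → (List α → K) → K
  | [], φ => φ []
  | L :: Ls, φ => L.val (fun w => pv Ls (fun u => φ (w ++ u)))

/-- for every leaf the siblings on the path from the root -/
def paths : BT → List (List BT)
  | BT.leaf => [[]]
  | BT.node a b => (paths a).map (fun l => b :: l) ++ (paths b).map (fun l => a :: l)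

/-- the factors `hs` in front -/
def PP (hs : List BT) (S : List (List BT)) : List (List BT) := S.map (fun l => hs ++ l)

/-- `φ` kills the two-sided ideal of the Lie monomials with shapes in `J` -/
def KI (J : BT → Prop) (φ : List α → K) : Prop :=
  ∀ U : LT α, J U.shape → ∀ u v : List α, U.val (fun w => φ (u ++ w ++ v)) = 0

/-- `φ` kills all labelled products of the shapes in `S` -/
def Ann (S : List (List BT)) (φ : List α → K) : Prop :=
  ∀ l ∈ S, ∀ Ls : List (LT α), Ls.map LT.shape = l → pv Ls φ = 0

end

section
variable (K : Type*) [Field K]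

/-- functions killing the ideal of `J` and the products `S` -/
def UA (J : BT → Prop) (S : List (List BT)) : Set (List ℕ → K) := {φ | KI J φ ∧ Ann S φ}

/-- alive modulo the ideal of `J` -/
def NI (J : BT → Prop) (h : BT) : Prop :=
  ∃ φ : List ℕ → K, KI J φ ∧ ∃ L : LT ℕ, L.shape = h ∧ L.val φ ≠ 0

open Classical in
/-- the shapes alive modulo `J` -/
noncomputable def fil (J : BT → Prop) (hs : List BT) : List BT := hs.filter (fun h => NI K J h)

end

section
open Classical

/-- big clades of a level -/
def Big (r : ℕ) (al : BT → Prop) (s : BT) : Prop := r < s.lv ∨ (s.lv = r ∧ ¬ al s)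

/-- number of minimal big clades -/
noncomputable def cb (r : ℕ) (al : BT → Prop) : BT → ℕ
  | BT.leaf => if Big r al BT.leaf then 1 else 0
  | BT.node a b => if cb r al a + cb r al b = 0 then (if Big r al (BT.node a b) then 1 else 0)
      else cb r al a + cb r al b

end

/-- at least `p` minimal big clades -/
def JL (r : ℕ) (al : BT → Prop) (p : ℕ) (U : BT) : Prop := p ≤ cb r al U

/-- canonical ideals -/
def JJ (K : Type*) [Field K] (s : ℕ) (m : ℕ → Submodule K (TT K) → ℕ) (U : BT) : Prop :=
  s ≤ U.lv ∧ ∀ r P, 1 ≤ r → r < s → m r P ≤ cb r (alN P) U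

/-- the canonical ideal of a tree -/
def JA (K : Type*) [Field K] (A : BT) : BT → Prop := JJ K A.lv (fun r P => cb r (alN P) A)

/-- letters of the leg test: `inl (i, k)` is mark `k` of group `i`, `inr (j, k)` letter `k` of block `j` -/
abbrev L2 := (ℕ × ℕ) ⊕ (ℕ × ℕ)

/-- the number of a mark of group `i` -/
def grp (i : ℕ) : L2 → Option ℕ
  | Sum.inl (a, k) => if a = i then some k else none
  | Sum.inr _ => none

/-- the number of a letter of block `j` -/
def blk (j : ℕ) : L2 → Option ℕ
  | Sum.inl _ => none
  | Sum.inr (a, k) => if a = j then some k else none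

/-- is in block `j` -/
def inB (j : ℕ) : L2 → Bool
  | Sum.inl _ => false
  | Sum.inr (a, _) => a == j

/-- data of a leg test: groups of marks, blocks with functionals and linear position weights -/
structure Td (K : Type*) where
  I : ℕ
  n : ℕ → ℕ
  J : ℕ
  sz : ℕ → ℕ
  ψ : ℕ → List ℕ → K
  th : ℕ → K
  ze : ℕ → K

namespace Td
variable {K : Type*} [Field K]

/-- all letters -/
def all (D : Td K) : List L2 :=
  (List.range D.I).flatMap (fun i => (List.range (D.n i)).map (fun k => Sum.inl (i, k))) ++
    (List.range D.J).flatMap (fun j => (List.range (D.sz j)).map (fun k => Sum.inr (j, k)))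

/-- number of marks to the right of all letters of block `j` -/
def a (D : Td K) (j : ℕ) (w : List L2) : ℕ :=
  ∑ i ∈ Finset.range D.I, ∑ k ∈ Finset.range (D.n i),
    if (w.filter (fun y => y == Sum.inl (i, k) || inB j y)).getLast? = some (Sum.inl (i, k)) then 1 else 0

open Classical in
/-- the test function -/
noncomputable def Φ (D : Td K) (w : List L2) : K :=
  if w.Perm D.all ∧ ∀ i < D.I, w.filterMap (grp i) = List.range (D.n i) then
    ∏ j ∈ Finset.range D.J, D.ψ j (w.filterMap (blk j)) * (D.th j * (D.a j w : K) + D.ze j)
  else 0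

/-- number of marks -/
def M (D : Td K) : ℕ := ∑ i ∈ Finset.range D.I, D.n i

/-- the data fit the level `(r, al)` -/
def Ok (D : Td K) (r : ℕ) (al : BT → Prop) : Prop :=
  ∀ j < D.J, 1 ≤ D.sz j ∧ D.sz j ≤ r ∧
    (D.sz j = r → ∀ S : LT ℕ, S.shape.lv = r → ¬ al S.shape → S.val (D.ψ j) = 0)

end Td

/-- number of marks in a labelled tree -/
def mks (L : LT L2) : ℕ := L.leaves.countP (fun x => x.isLeft)

/-- number of marks in a list of labelled trees -/
def mkl (Ls : List (LT L2)) : ℕ := (Ls.map mks).sum

/-- trees with marked leaves and unmarked hanging clades -/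
inductive MT2 where
  | mark : MT2
  | node : MT2 → MT2 → MT2
  | hr : MT2 → BT → MT2
  | hl : BT → MT2 → MT2

namespace MT2

/-- shape -/
def shape : MT2 → BT
  | mark => BT.leaf
  | node a b => BT.node a.shape b.shape
  | hr a s => BT.node a.shape s
  | hl s a => BT.node s a.shape

/-- number of marks -/
def marks : MT2 → ℕ
  | mark => 1
  | node a b => a.marks + b.marks
  | hr a _ => a.marks
  | hl _ a => a.marks

/-- hanging clades -/
def hangs : MT2 → List BT
  | mark => []
  | node a b => a.hangs ++ b.hangs
  | hr a s => a.hangs ++ [s]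
  | hl s a => s :: a.hangs

end MT2

/-- items of a product: a marked tree in a group, or an unmarked clade with its weight -/
inductive It (K : Type*) where
  | big : ℕ → MT2 → It K
  | sm : BT → K → K → It K

namespace It
variable {K : Type*} [Field K]

/-- shape -/
def shape : It K → BT
  | big _ M => M.shape
  | sm s _ _ => s

/-- number of marks -/
def marks : It K → ℕ
  | big _ M => M.marks
  | sm _ _ _ => 0

/-- number of marks of group `i` -/
def mk (i : ℕ) : It K → ℕ
  | big g M => if g = i then M.marks else 0
  | sm _ _ _ => 0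

/-- blocks with their weights; hanging clades get `(1, z)` -/
def blks (z : K) : It K → List (BT × K × K)
  | big _ M => M.hangs.map (fun s => (s, 1, z))
  | sm s t e => [(s, t, e)]

end It

/-- the blocks of a list of items -/
def blks {K : Type*} [Field K] (z : K) (its : List (It K)) : List (BT × K × K) := its.flatMap (It.blks z)

/-- the data of a list of items -/
def tdOf {K : Type*} [Field K] (z : K) (I : ℕ) (its : List (It K)) (ψ : ℕ → List ℕ → K) : Td K where
  I := I
  n := fun i => (its.map (It.mk i)).sum
  J := (blks z its).length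
  sz := fun j => ((blks z its).getD j (BT.leaf, 0, 0)).1.lv
  ψ := ψ
  th := fun j => ((blks z its).getD j (BT.leaf, 0, 0)).2.1
  ze := fun j => ((blks z its).getD j (BT.leaf, 0, 0)).2.2

section
open Classical

/-- the marked tree of a tree at a level: one mark in each minimal big clade -/
noncomputable def mb (r : ℕ) (al : BT → Prop) : BT → MT2
  | BT.leaf => MT2.mark
  | BT.node a b =>
    if 0 < cb r al a ∧ 0 < cb r al b then MT2.node (mb r al a) (mb r al b)
    else if 0 < cb r al b then MT2.hl a (mb r al b)
    else MT2.hr (mb r al a) b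

/-- a path to a leaf in a minimal big clade -/
noncomputable def bp (r : ℕ) (al : BT → Prop) : BT → List BT
  | BT.leaf => []
  | BT.node a b =>
    if 0 < cb r al a then b :: bp r al a
    else if 0 < cb r al b then a :: bp r al b
    else b :: bp r al a

/-- killed by `f` -/
def kl {K : Type*} [Field K] (f : List ℕ → K) (X : BT) : Prop := ∀ L : LT ℕ, L.shape = X → L.val f = 0

/-- the lists of Step 3 -/
noncomputable def SF {K : Type*} [Field K] (f : List ℕ → K) (hs : List BT) (A B : BT) : List (List BT) :=
  (if kl f B then [] else PP hs (paths A)) ++ (if kl f A then [] else PP hs (paths B))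

end

/-- supported on the permutations of `0, ..., q-1` -/
def Sp {K : Type*} [Field K] (q : ℕ) (f : List ℕ → K) : Prop := ∀ w, f w ≠ 0 → w.Perm (List.range q)

/-- restriction to letter classes: `(i, x)` is letter `x` of class `i` -/
noncomputable def shuf {K : Type*} [Field K] (k : ℕ) (φ : ℕ → List ℕ → K) (w : List (ℕ × ℕ)) : K :=
  if ∀ x ∈ w, x.1 < k then
    ∏ i ∈ Finset.range k, φ i (w.filterMap (fun x => if x.1 = i then some x.2 else none))
  else 0

/-- the letters of `L` are in class `i` -/
def InC (i : ℕ) (L : LT (ℕ × ℕ)) : Prop := ∀ x ∈ L.leaves, x.1 = i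

/-- the main induction statement -/
def EE (K : Type*) [Field K] (s : ℕ) : Prop :=
  ∀ A A' : BT, A.lv = s → A'.lv = s →
    (∀ r (P : Submodule K (TT K)), 1 ≤ r → r < s → cb r (alN P) A = cb r (alN P) A') →
    ∀ hs : List BT, (∀ h ∈ hs, NI K (JA K A) h) →
      UA K (JA K A) (PP hs (paths A)) = UA K (JA K A) (PP hs (paths A')) → BT.Iso A A'

/-- the plain statement -/
def MM (K : Type*) [Field K] (s : ℕ) : Prop :=
  ∀ A A' : BT, A.lv = s → X0 K A = X0 K A' → BT.Iso A A'

end Pool.Agent.Bht.BK.CZ
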